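import Pool.Agent.H687.KC.Loc

/-! Every map of the complete graph with four vertices to the plane has a nearly inscribed square
with labels without common vertex. -/

set_option autoImplicit false
open Complex Set Topology Metric

namespace Pool.Agent.H687.KC

open Pool.Agent.H763R2 Pool.Agent.H763R2.An Pool.Agent.Y535.PEG Pool.Agent.H687.K4
open Pool.Agent.H763R2.Dm (NoSq floor_const)

/-- charges on the seven cycles are impossible -/
theorem seven (X : Fin 4 → Fin 4 → Fin 4 → ZMod 2) (E : Fin 4 → Fin 4 → ZMod 2)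
    (hX : ∀ a b c, a ≠ b → b ≠ c → a ≠ c → X a b c = X c b a) (hE : ∀ a b, a ≠ b → E a b = E b a)
    (h3 : ∀ a b c, a ≠ b → b ≠ c → a ≠ c →
      (1 : ZMod 2) = (X c a b + E a b) + (X a b c + E b c) + (X b c a + E c a))
    (h4 : ∀ a b c d, a ≠ b → b ≠ c → a ≠ c → a ≠ d → b ≠ d → c ≠ d →
      (1 : ZMod 2) = (X d a b + E a b) + (X a b c + E b c) + (X b c d + E c d) +
        (X c d a + E d a)) : False := by
  have t1 := h3 0 1 2 (by decide) (by decide) (by decide)
  have t2 := h3 0 1 3 (by decide) (by decide) (by decide)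
  have t3 := h3 0 2 3 (by decide) (by decide) (by decide)
  have t4 := h3 1 2 3 (by decide) (by decide) (by decide)
  have q1 := h4 0 1 2 3 (by decide) (by decide) (by decide) (by decide) (by decide) (by decide)
  have q2 := h4 0 1 3 2 (by decide) (by decide) (by decide) (by decide) (by decide) (by decide)
  have q3 := h4 0 2 1 3 (by decide) (by decide) (by decide) (by decide) (by decide) (by decide)
  have x1 := hX 2 0 1 (by decide) (by decide) (by decide)
  have x2 := hX 3 0 1 (by decide) (by decide) (by decide)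
  have x3 := hX 3 0 2 (by decide) (by decide) (by decide)
  have x6 := hX 3 1 2 (by decide) (by decide) (by decide)
  have x7 := hX 1 2 0 (by decide) (by decide) (by decide)
  have x8 := hX 3 2 0 (by decide) (by decide) (by decide)
  have x10 := hX 1 3 0 (by decide) (by decide) (by decide)
  have x11 := hX 2 3 0 (by decide) (by decide) (by decide)
  have x12 := hX 2 3 1 (by decide) (by decide) (by decide)
  have e2 := hE 2 0 (by decide)
  have e3 := hE 3 0 (by decide)
  have e4 := hE 2 1 (by decide)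
  have e5 := hE 3 1 (by decide)
  have e6 := hE 3 2 (by decide)
  simp only [x1, x2, x3, x6, x7, x8, x10, x11, x12, e2, e3, e4, e5, e6] at t1 t2 t3 t4 q1 q2 q3
  have h2 : (2 : ZMod 2) = 0 := rfl
  have h7 : (7 : ZMod 2) = 1 := rfl
  have h44 : (4 : ZMod 2) = 0 := rfl
  have key : (2 : ZMod 2) * (X 1 0 2 + X 1 0 3 + X 2 0 3 + X 0 1 2 + X 0 1 3 + X 2 1 3 + X 0 2 1 +
      X 0 2 3 + X 1 2 3 + X 0 3 1 + X 0 3 2 + X 1 3 2) +
      4 * (E 0 1 + E 0 2 + E 0 3 + E 1 2 + E 1 3 + E 2 3) = 7 := by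
    linear_combination -(t1 + t2 + t3 + t4 + q1 + q2 + q3)
  rw [h2, h44, h7, zero_mul, zero_mul, add_zero] at key
  exact absurd key (by decide)

theorem tri_inj : ∀ a b c : Fin 4, a ≠ b → b ≠ c → a ≠ c → Function.Injective (tri a b c) := by
  decide

theorem quad_inj : ∀ a b c d : Fin 4, a ≠ b → b ≠ c → a ≠ c → a ≠ d → b ≠ d → c ≠ d →
    Function.Injective (quad a b c d) := by
  decide

theorem approx (φ : (Fin 4 → ℝ) → ℂ) (hφ : ContinuousOn φ (real ⊤)) {δ : ℝ} (hδ : 0 < δ) :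
    ∃ (l : Fin 4) (v : ZMod (l.val + 1) → Fin 4), IsCyc ⊤ v ∧ Near φ δ v := by
  by_contra hcon
  push Not at hcon
  let β : Type := {p : (l : Fin 4) × (ZMod (l.val + 1) → Fin 4) // IsCyc ⊤ p.2}
  have : Finite β := Subtype.finite
  have : Fintype β := Fintype.ofFinite β
  have W : ∀ p : β, Walk (p.1.1.val + 1) (wk p.1.2) := fun p => p.2.walk
  have hK : ∀ (p : β) (s : ℝ), ev (wk p.1.2) s ∈ track p.1.2 := fun p s => ev_track p.1.2 s
  have hψ : ∀ p : β, ContinuousOn φ (track p.1.2) := fun p => hφ.mono p.2.track_sub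
  obtain ⟨κ, hκ, hu⟩ := exists_min (P := fun (p : β) κ => κ ≤ 1 / 2 ∧ ∀ s t : ℝ, |s - t| ≤ κ →
      ‖φ (ev (wk p.1.2) s) - φ (ev (wk p.1.2) t)‖ ≤ δ / 2)
    (fun i x y h hyx hy => ⟨hyx.trans h.1, fun s t hst => h.2 s t (hst.trans hyx)⟩) (fun p => by
      have Lp := (W p).cv_loop (hψ p) (hK p)
      obtain ⟨N0, hN0, hN⟩ := Lp.fine (half_pos hδ)
      have hL : (1:ℝ) ≤ ((p.1.1.val + 1 : ℕ) : ℝ) := by push_cast; linarith [Nat.cast_nonneg (α := ℝ) p.1.1.val]
      have hN1 : (1:ℝ) ≤ N0 := by exact_mod_cast hN0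
      refine ⟨1 / (2 * N0), by positivity, ?_, fun s t hst => ?_⟩
      · rw [div_le_div_iff₀ (by positivity) (by norm_num)]; linarith
      · have := hN N0 le_rfl (s / ((p.1.1.val + 1 : ℕ) : ℝ)) (t / ((p.1.1.val + 1 : ℕ) : ℝ)) (by
          rw [← sub_div, abs_div, abs_of_pos (show (0:ℝ) < ((p.1.1.val + 1 : ℕ) : ℝ) by linarith)]
          refine (div_le_self (abs_nonneg _) hL).trans (hst.trans ?_)
          rw [div_le_div_iff₀ (by positivity) (by positivity)]
          linarith)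
        unfold cv at this
        rw [mul_div_cancel₀ _ (by linarith), mul_div_cancel₀ _ (by linarith)] at this
        exact this.le)
  by_cases hβ : Nonempty β
  · obtain ⟨p0⟩ := hβ
    have hκ2 := (hu p0).1
    obtain ⟨X, E, hX, hE, hs⟩ := family (ψ := φ) (r := 1 - κ) (K := fun p : β => track p.1.2) hψ
      (fun p => p.1.1.val + 1) (fun p => wk p.1.2) W hK (half_pos hδ) (by linarith) (by linarith)
      (fun p q hG hq => sl_of p.2 hκ hκ2 (hu p).2 hδ (hcon p.1.1 p.1.2 p.2) hG hq)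
    have tri_mem : ∀ a b c : Fin 4, a ≠ b → b ≠ c → a ≠ c → IsCyc (⊤ : SimpleGraph (Fin 4))
        (L := 3) (tri a b c) := fun a b c h1 h2 h3 => cyc_top le_rfl (tri_inj a b c h1 h2 h3)
    have quad_mem : ∀ a b c d : Fin 4, a ≠ b → b ≠ c → a ≠ c → a ≠ d → b ≠ d → c ≠ d →
        IsCyc (⊤ : SimpleGraph (Fin 4)) (L := 4) (quad a b c d) :=
      fun a b c d h1 h2 h3 h4 h5 h6 => cyc_top (by norm_num) (quad_inj a b c d h1 h2 h3 h4 h5 h6)
    refine seven X E ?_ ?_ ?_ ?_
    · intro a b c h1 h2 h3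
      exact hX ⟨⟨2, tri a b c⟩, tri_mem a b c h1 h2 h3⟩ 1
    · intro a b h1
      obtain ⟨c, hc1, hc2⟩ : ∃ c : Fin 4, c ≠ a ∧ c ≠ b := by
        revert a b; decide
      exact hE ⟨⟨2, tri a b c⟩, tri_mem a b c h1 hc2.symm hc1.symm⟩ 0
    · intro a b c h1 h2 h3
      have : (1 : ZMod 2) = ∑ k ∈ Finset.Ico (0:ℤ) ((3:ℕ):ℤ), (X (wk (tri a b c) (k - 1))
          (wk (tri a b c) k) (wk (tri a b c) (k + 1)) + E (wk (tri a b c) k)
          (wk (tri a b c) (k + 1))) := hs ⟨⟨2, tri a b c⟩, tri_mem a b c h1 h2 h3⟩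
      rw [sum_Ico_range, Finset.sum_range_succ, Finset.sum_range_succ, Finset.sum_range_succ,
        Finset.sum_range_zero, zero_add] at this
      exact this
    · intro a b c d h1 h2 h3 h4 h5 h6
      have : (1 : ZMod 2) = ∑ k ∈ Finset.Ico (0:ℤ) ((4:ℕ):ℤ), (X (wk (quad a b c d) (k - 1))
          (wk (quad a b c d) k) (wk (quad a b c d) (k + 1)) + E (wk (quad a b c d) k)
          (wk (quad a b c d) (k + 1))) :=
        hs ⟨⟨3, quad a b c d⟩, quad_mem a b c d h1 h2 h3 h4 h5 h6⟩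
      rw [sum_Ico_range, Finset.sum_range_succ, Finset.sum_range_succ, Finset.sum_range_succ,
        Finset.sum_range_succ, Finset.sum_range_zero, zero_add] at this
      exact this
  · exact hβ ⟨⟨⟨2, tri 0 1 2⟩, cyc_top le_rfl (by decide)⟩⟩

end Pool.Agent.H687.KC
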