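import Mathlib

/-! KC-ARITH: counting the windows that contain finitely many points of the circle. -/

set_option autoImplicit false
open Set

namespace Pool.Agent.H687.KC

theorem mul_small_ar {L d : ℤ} (hL : 3 ≤ L) (h1 : -2 ≤ L * d) (h2 : L * d ≤ 2) : d = 0 := by
  by_contra hd
  rcases lt_or_gt_of_ne hd with h | h
  · have : d ≤ -1 := by omega
    nlinarith
  · have : 1 ≤ d := by omega
    nlinarith

theorem count_ar {ι : Type*} [Fintype ι] [Nonempty ι] (τ : ι → ℝ) {L : ℕ} (hL : 3 ≤ L) {r : ℝ}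
    (h1 : r < 1) (k0 : ℤ) (n : ι → ℤ)
    (hn : ∀ i, (k0 : ℝ) - r ≤ L * (τ i + n i) ∧ L * (τ i + n i) ≤ (k0 : ℝ) + r) (s a b : ℤ)
    (hs : 0 ≤ s)
    (hab : ∀ w : ℤ, (a ≤ w ∧ w ≤ b - s) ↔
      ∀ i, L * (τ i + n i) ≤ (w : ℝ) + r ∧ (w : ℝ) + s - r ≤ L * (τ i + n i)) :
    {k : ℤ | (0 ≤ k ∧ k < L) ∧ ∀ i, ∃ m : ℤ,
        (k : ℝ) + s - r ≤ L * (τ i + m) ∧ L * (τ i + m) ≤ (k : ℝ) + r}.ncard =
      (Finset.Icc a (b - s)).card := by
  have hL' : (3 : ℤ) ≤ (L : ℤ) := by exact_mod_cast hL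
  have hsR : (0 : ℝ) ≤ (s : ℝ) := by exact_mod_cast hs
  have i0 : ι := Classical.arbitrary ι
  -- elements of the interval are close to `k0`
  have hclose : ∀ w : ℤ, (a ≤ w ∧ w ≤ b - s) → k0 - 1 ≤ w ∧ w ≤ k0 + 1 := by
    intro w hw
    have h3 := (hab w).1 hw i0
    have h4 := hn i0
    constructor
    · have : (k0 : ℝ) - 2 < w := by linarith [h3.1, h4.1]
      have : k0 - 2 < w := by exact_mod_cast this
      omega
    · have : (w : ℝ) < k0 + 2 := by linarith [h3.2, h4.2]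
      have : w < k0 + 2 := by exact_mod_cast this
      omega
  have hset : {k : ℤ | (0 ≤ k ∧ k < L) ∧ ∀ i, ∃ m : ℤ,
        (k : ℝ) + s - r ≤ L * (τ i + m) ∧ L * (τ i + m) ≤ (k : ℝ) + r} =
      (fun w : ℤ => w % (L : ℤ)) '' (↑(Finset.Icc a (b - s)) : Set ℤ) := by
    ext k
    simp only [mem_setOf_eq, mem_image, Finset.coe_Icc, mem_Icc]
    constructor
    · rintro ⟨⟨hk0, hkL⟩, hk⟩
      choose m hm using hk
      have hj : ∀ i, -1 ≤ k - k0 - L * (m i - n i) ∧ k - k0 - L * (m i - n i) ≤ 1 := by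
        intro i
        have h3 := hm i
        have h4 := hn i
        have e : (L : ℝ) * (τ i + m i) = L * (τ i + n i) + L * ((m i : ℝ) - n i) := by ring
        rw [e] at h3
        constructor
        · have : (-2 : ℝ) < (k : ℝ) - k0 - L * ((m i : ℝ) - n i) := by linarith [h3.2, h4.1]
          have : (-2 : ℤ) < k - k0 - L * (m i - n i) := by exact_mod_cast this
          omega
        · have : (k : ℝ) - k0 - L * ((m i : ℝ) - n i) < 2 := by linarith [h3.1, h4.2]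
          have : k - k0 - L * (m i - n i) < (2 : ℤ) := by exact_mod_cast this
          omega
      have hjj : ∀ i, m i - n i = m i0 - n i0 := by
        intro i
        have h3 := hj i
        have h4 := hj i0
        have : (m i - n i) - (m i0 - n i0) = 0 := by
          apply mul_small_ar hL'
          · rw [mul_sub (L : ℤ) (m i - n i)]; omega
          · rw [mul_sub (L : ℤ) (m i - n i)]; omega
        omega
      refine ⟨k - L * (m i0 - n i0), ?_, ?_⟩
      · apply (hab _).2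
        intro i
        have h3 := hm i
        have e : (L : ℝ) * (τ i + m i) = L * (τ i + n i) + L * ((m i : ℝ) - n i) := by ring
        have e2 : ((m i : ℝ) - n i) = (m i0 : ℝ) - n i0 := by exact_mod_cast hjj i
        rw [e, e2] at h3
        push_cast
        constructor
        · linarith [h3.2]
        · linarith [h3.1]
      · rw [Int.sub_mul_emod_self_left]
        exact Int.emod_eq_of_lt hk0 hkL
    · rintro ⟨w, hw, rfl⟩
      have hLpos : (0 : ℤ) < (L : ℤ) := by omega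
      refine ⟨⟨Int.emod_nonneg _ hLpos.ne', Int.emod_lt_of_pos _ hLpos⟩, fun i => ?_⟩
      refine ⟨n i - w / L, ?_⟩
      have h3 := (hab w).1 hw i
      have e : ((w % (L : ℤ) : ℤ) : ℝ) = (w : ℝ) - L * ((w / (L : ℤ) : ℤ) : ℝ) := by
        have := Int.emod_add_mul_ediv w (L : ℤ)
        have h5 : w % (L : ℤ) = w - L * (w / L) := by omega
        rw [h5]
        push_cast
        ring
      rw [e]
      push_cast
      constructor
      · have := h3.2
        nlinarith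
      · have := h3.1
        nlinarith
  rw [hset, Set.ncard_image_of_injOn, Set.ncard_coe_finset]
  intro w hw w' hw' hww
  rw [Finset.coe_Icc, mem_Icc] at hw hw'
  have h3 := hclose w hw
  have h4 := hclose w' hw'
  have h5 : (L : ℤ) ∣ w - w' := Int.ModEq.dvd (Int.ModEq.symm hww)
  obtain ⟨d, hd⟩ := h5
  have : d = 0 := mul_small_ar hL' (by omega) (by omega)
  rw [this, mul_zero] at hd
  omega

/-- If all points `τ i` (modulo one) lie in one window `[(k-r)/L, (k+r)/L]`, then the number of such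
windows (`k` modulo `L`) plus the number of the windows `[(k+1-r)/L, (k+r)/L]` containing all the
points is odd. -/
theorem arith {ι : Type*} [Fintype ι] [Nonempty ι] (τ : ι → ℝ) {L : ℕ} (hL : 3 ≤ L) {r : ℝ}
    (h0 : 1 / 2 ≤ r) (h1 : r < 1)
    (h : ∃ k0 : ℤ, ∀ i, ∃ n : ℤ, τ i + n ∈ Icc (((k0:ℝ) - r) / L) (((k0:ℝ) + r) / L)) :
    (({k : ℤ | (0 ≤ k ∧ k < L) ∧ ∀ i, ∃ n : ℤ,
        τ i + n ∈ Icc (((k:ℝ) - r) / L) (((k:ℝ) + r) / L)}.ncard : ℕ) : ZMod 2) +
    (({k : ℤ | (0 ≤ k ∧ k < L) ∧ ∀ i, ∃ n : ℤ,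
        τ i + n ∈ Icc (((k:ℝ) + 1 - r) / L) (((k:ℝ) + r) / L)}.ncard : ℕ) : ZMod 2) = 1 := by
  have hLpos : (0 : ℝ) < (L : ℝ) := by
    have : 0 < L := by omega
    exact_mod_cast this
  have hmem : ∀ (x u v : ℝ), x ∈ Icc (u / L) (v / L) ↔ (u ≤ L * x ∧ L * x ≤ v) := by
    intro x u v
    rw [mem_Icc, div_le_iff₀ hLpos, le_div_iff₀ hLpos, mul_comm x]
  simp only [hmem] at h ⊢
  obtain ⟨k0, h⟩ := h
  choose n hn using h
  obtain ⟨a, ha⟩ : ∃ a : ℤ, ∀ w : ℤ, a ≤ w ↔ ∀ i, L * (τ i + n i) ≤ (w : ℝ) + r := by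
    refine ⟨Finset.univ.sup' Finset.univ_nonempty (fun i => ⌈L * (τ i + n i) - r⌉), fun w => ?_⟩
    rw [Finset.sup'_le_iff]
    constructor
    · intro h3 i
      have := Int.ceil_le.1 (h3 i (Finset.mem_univ i))
      linarith
    · intro h3 i _
      rw [Int.ceil_le]
      linarith [h3 i]
  obtain ⟨b, hb⟩ : ∃ b : ℤ, ∀ w : ℤ, w ≤ b ↔ ∀ i, (w : ℝ) - r ≤ L * (τ i + n i) := by
    refine ⟨Finset.univ.inf' Finset.univ_nonempty (fun i => ⌊L * (τ i + n i) + r⌋), fun w => ?_⟩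
    rw [Finset.le_inf'_iff]
    constructor
    · intro h3 i
      have := Int.le_floor.1 (h3 i (Finset.mem_univ i))
      linarith
    · intro h3 i _
      rw [Int.le_floor]
      linarith [h3 i]
  have hs : ∀ s : ℤ, ∀ w : ℤ, (a ≤ w ∧ w ≤ b - s) ↔
      ∀ i, L * (τ i + n i) ≤ (w : ℝ) + r ∧ (w : ℝ) + s - r ≤ L * (τ i + n i) := by
    intro s w
    have e : (w ≤ b - s) ↔ (w + s ≤ b) := by omega
    rw [e, ha, hb]
    push_cast
    constructor
    · rintro ⟨h3, h4⟩ i
      exact ⟨h3 i, h4 i⟩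
    · intro h3
      exact ⟨fun i => (h3 i).1, fun i => (h3 i).2⟩
  have hak : a ≤ k0 := (ha k0).2 fun i => (hn i).2
  have hkb : k0 ≤ b := (hb k0).2 fun i => (hn i).1
  have c0 := count_ar τ hL h1 k0 n hn 0 a b le_rfl (hs 0)
  have c1 := count_ar τ hL h1 k0 n hn 1 a b zero_le_one (hs 1)
  simp only [Int.cast_zero, Int.cast_one, add_zero, sub_zero] at c0 c1
  rw [c0, c1, Int.card_Icc, Int.card_Icc]
  have e : (b + 1 - a).toNat = (b - 1 + 1 - a).toNat + 1 := by omega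
  rw [e]
  push_cast
  have h2 : ((2 : ℕ) : ZMod 2) = 0 := by decide
  have h2' : (2 : ZMod 2) = 0 := by exact_mod_cast h2
  linear_combination (((b - 1 + 1 - a).toNat : ℕ) : ZMod 2) * h2'

end Pool.Agent.H687.KC
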