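import Pool.Agent.H687.K4.Win

/-! KC-WIN: the zeros seen in a window, counted in a triangle of parameters. -/

set_option autoImplicit false
open Complex Set Topology Metric

namespace Pool.Agent.H687.KC

open Pool.Agent.H763R2 Pool.Agent.H763R2.An Pool.Agent.Y535.PEG Pool.Agent.H687.K4

variable {q : ℝ → ℂ}

/-- the four points of the square have parameters in `W` modulo one -/
def Qw (q : ℝ → ℂ) (z : ℝ × ℝ) (W : Set ℝ) : Prop :=
  (∃ n : ℤ, z.1 + n ∈ W) ∧ (∃ n : ℤ, z.2 + n ∈ W) ∧ CC q z.1 z.2 ∈ q '' W ∧ DD q z.1 z.2 ∈ q '' W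

/-- the representative of a parameter in `[σ, σ + 1)` -/
noncomputable def c_win (σ t : ℝ) : ℝ := t + ((-⌊t - σ⌋ : ℤ) : ℝ)

theorem c_ge_win (σ t : ℝ) : σ ≤ c_win σ t := by
  unfold c_win
  have := Int.floor_le (t - σ)
  push_cast
  linarith

theorem c_lt_win (σ t : ℝ) : c_win σ t < σ + 1 := by
  unfold c_win
  have := Int.lt_floor_add_one (t - σ)
  push_cast
  linarith

theorem c_add_win {σ x : ℝ} (n : ℤ) (h1 : σ ≤ x) (h2 : x < σ + 1) : c_win σ (x + n) = x := by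
  have e : ⌊x + n - σ⌋ = n := by
    rw [Int.floor_eq_iff]
    constructor <;> linarith
  unfold c_win
  rw [e]
  push_cast
  ring

theorem q_c_win (hG : Gen q) (σ t : ℝ) : q (c_win σ t) = q t := hG.L.per_int _ _

theorem int_win {x y : ℝ} {n : ℤ} (h : x = y + n) (h1 : x < y + 1) (h2 : y < x + 1) : x = y := by
  have j1 : (n : ℝ) < 1 := by linarith
  have j2 : (-1 : ℝ) < n := by linarith
  have j3 : n < 1 := by exact_mod_cast j1
  have j4 : -1 < n := by exact_mod_cast j2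
  have : n = 0 := by omega
  rw [h, this]
  simp

theorem c_inj_win {σ x y : ℝ} (h : c_win σ x = c_win σ y) (h1 : x < y + 1) (h2 : y < x + 1) :
    x = y := by
  unfold c_win at h
  refine int_win (n := ⌊x - σ⌋ - ⌊y - σ⌋) ?_ h1 h2
  push_cast at h ⊢
  linarith

/-- the right-hand side, seen in the window -/
theorem rhs_win (hG : Gen q) {σ a b : ℝ} (hσ : ∀ y, (σ, y) ∉ Zq q) (hab : b < a + 1) :
    {z : ℝ × ℝ | z ∈ ZW q (Icc a b) ∧ c_win σ z.1 < c_win σ z.2}.ncard =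
      {z : ℝ × ℝ | z ∈ Zq q ∧ σ < z.1 ∧ z.2 < σ + 1 ∧ Qw q z (Icc a b)}.ncard := by
  refine Set.ncard_congr (fun z _ => (c_win σ z.1, c_win σ z.2)) ?_ ?_ ?_
  · rintro ⟨x, y⟩ ⟨⟨h1, h2, h3, h4, h5⟩, h6⟩
    simp only at h1 h2 h3 h4 h5 h6
    have eC : CC q (c_win σ x) (c_win σ y) = CC q x y := by
      unfold CC
      rw [q_c_win hG, q_c_win hG]
    have eD : DD q (c_win σ x) (c_win σ y) = DD q x y := by
      unfold DD
      rw [q_c_win hG, q_c_win hG]
    have hx1 := c_ge_win σ x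
    have hx2 := c_lt_win σ x
    have hy1 := c_ge_win σ y
    have hy2 := c_lt_win σ y
    have hZ : (c_win σ x, c_win σ y) ∈ Zq q := by
      refine ⟨⟨h6, by simp only; linarith⟩, ?_, ?_⟩
      · simp only
        rw [eD]
        exact Set.image_subset_range _ _ h5
      · simp only
        rw [eC]
        exact Set.image_subset_range _ _ h4
    refine ⟨hZ, ?_, hy2, ⟨⌊x - σ⌋, ?_⟩, ⟨⌊y - σ⌋, ?_⟩, ?_, ?_⟩
    · simp only
      refine lt_of_le_of_ne hx1 fun he => ?_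
      rw [← he] at hZ
      exact hσ _ hZ
    · simp only [c_win]
      push_cast
      rw [neg_add_cancel_right]
      exact h1
    · simp only [c_win]
      push_cast
      rw [neg_add_cancel_right]
      exact h2
    · simp only
      rw [eC]
      exact h4
    · simp only
      rw [eD]
      exact h5
  · rintro ⟨x, y⟩ ⟨x', y'⟩ ⟨⟨h1, h2, -⟩, -⟩ ⟨⟨h1', h2', -⟩, -⟩ he
    simp only at h1 h2 h1' h2'
    simp only [Prod.mk.injEq] at he
    have e1 := c_inj_win he.1 (by linarith [h1.2, h1'.1]) (by linarith [h1.1, h1'.2])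
    have e2 := c_inj_win he.2 (by linarith [h2.2, h2'.1]) (by linarith [h2.1, h2'.2])
    rw [e1, e2]
  · rintro ⟨x, y⟩ ⟨hZ, h1, h2, ⟨n, hn⟩, ⟨m, hm⟩, h3, h4⟩
    simp only at h1 h2 hn hm h3 h4
    obtain ⟨⟨h5, h6⟩, -, -⟩ := hZ
    simp only at h5 h6
    have ex : c_win σ (x + n) = x := c_add_win n h1.le (by linarith)
    have ey : c_win σ (y + m) = y := c_add_win m (by linarith) h2
    have eC : CC q (x + n) (y + m) = CC q x y := by
      unfold CC
      rw [hG.L.per_int, hG.L.per_int]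
    have eD : DD q (x + n) (y + m) = DD q x y := by
      unfold DD
      rw [hG.L.per_int, hG.L.per_int]
    refine ⟨(x + n, y + m), ⟨⟨hn, hm, ?_, ?_, ?_⟩, ?_⟩, ?_⟩
    · simp only
      intro he
      have : x = y := by
        refine int_win (n := m - n) ?_ (by linarith) (by linarith)
        push_cast
        linarith
      linarith
    · simp only
      rw [eC]
      exact h3
    · simp only
      rw [eD]
      exact h4
    · simp only
      rw [ex, ey]
      exact h5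
    · simp only
      rw [ex, ey]

open Classical in
/-- the rotation of the vertices -/
noncomputable def rot_win (q : ℝ → ℂ) (W : Set ℝ) (z : ℝ × ℝ) : ℝ × ℝ :=
  if q z.1 = q z.2 then (z.2, z.1) else (z.2, pw q W (CC q z.1 z.2))

open Classical in
/-- the inverse rotation of the vertices -/
noncomputable def tor_win (q : ℝ → ℂ) (W : Set ℝ) (z : ℝ × ℝ) : ℝ × ℝ :=
  if q z.1 = q z.2 then (z.2, z.1) else (pw q W (DD q z.1 z.2), z.1)

theorem swap_win {W : Set ℝ} {z : ℝ × ℝ} (h : z ∈ ZW q W) (he : q z.1 = q z.2) :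
    (z.2, z.1) ∈ ZW q W := by
  obtain ⟨h1, h2, h3, h4, h5⟩ := h
  have e1 : CC q z.2 z.1 = q z.1 := by unfold CC Sq.Cv; rw [he]; ring
  have e2 : DD q z.2 z.1 = q z.1 := by unfold DD Sq.Dv; rw [he]; ring
  refine ⟨h2, h1, h3.symm, ?_, ?_⟩
  · simp only; rw [e1]; exact ⟨z.1, h1, rfl⟩
  · simp only; rw [e2]; exact ⟨z.1, h1, rfl⟩

theorem rot_mem_win {W : Set ℝ} {z : ℝ × ℝ} (h : z ∈ ZW q W) : rot_win q W z ∈ ZW q W := by
  unfold rot_win
  by_cases he : q z.1 = q z.2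
  · rw [if_pos he]
    exact swap_win h he
  · rw [if_neg he]
    obtain ⟨h1, h2, h3, h4, h5⟩ := h
    obtain ⟨c1, c2⟩ := pw_spec h4
    refine ⟨h2, c1, fun h => rot_ne he c2 (congrArg q h), ?_, ?_⟩
    · simp only; rw [rot_CC c2]; exact h5
    · simp only; rw [rot_DD c2]; exact ⟨z.1, h1, rfl⟩

theorem tor_mem_win {W : Set ℝ} {z : ℝ × ℝ} (h : z ∈ ZW q W) : tor_win q W z ∈ ZW q W := by
  unfold tor_win
  by_cases he : q z.1 = q z.2
  · rw [if_pos he]
    exact swap_win h he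
  · rw [if_neg he]
    obtain ⟨h1, h2, h3, h4, h5⟩ := h
    obtain ⟨d1, d2⟩ := pw_spec h5
    refine ⟨d1, h1, fun h => tor_ne he d2 (congrArg q h), ?_, ?_⟩
    · simp only; rw [tor_CC d2]; exact ⟨z.2, h2, rfl⟩
    · simp only; rw [tor_DD d2]; exact h4

theorem tor_rot_win (hG : Gen q) {a b : ℝ} (hab : b < a + 1) {z : ℝ × ℝ}
    (h : z ∈ ZW q (Icc a b)) : tor_win q (Icc a b) (rot_win q (Icc a b) z) = z := by
  by_cases he : q z.1 = q z.2
  · have e1 : rot_win q (Icc a b) z = (z.2, z.1) := if_pos he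
    rw [e1]
    unfold tor_win
    rw [if_pos he.symm]
  · have e1 : rot_win q (Icc a b) z = (z.2, pw q (Icc a b) (CC q z.1 z.2)) := if_neg he
    obtain ⟨s1, s2, -, -⟩ := ZW_sq hG h he
    obtain ⟨h1, h2, h3, h4, h5⟩ := h
    obtain ⟨c1, c2⟩ := pw_spec h4
    rw [e1]
    unfold tor_win
    rw [if_neg (rot_ne he c2)]
    simp only
    rw [rot_DD c2, pw_eq hab s1 h1 rfl]

theorem rot_tor_win (hG : Gen q) {a b : ℝ} (hab : b < a + 1) {z : ℝ × ℝ}
    (h : z ∈ ZW q (Icc a b)) : rot_win q (Icc a b) (tor_win q (Icc a b) z) = z := by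
  by_cases he : q z.1 = q z.2
  · have e1 : tor_win q (Icc a b) z = (z.2, z.1) := if_pos he
    rw [e1]
    unfold rot_win
    rw [if_pos he.symm]
  · have e1 : tor_win q (Icc a b) z = (pw q (Icc a b) (DD q z.1 z.2), z.1) := if_neg he
    obtain ⟨s1, s2, -, -⟩ := ZW_sq hG h he
    obtain ⟨h1, h2, h3, h4, h5⟩ := h
    obtain ⟨d1, d2⟩ := pw_spec h5
    rw [e1]
    unfold rot_win
    rw [if_neg (tor_ne he d2)]
    simp only
    rw [tor_CC d2, pw_eq hab s2 h2 rfl]

theorem rot_fst_win {W : Set ℝ} (z : ℝ × ℝ) : (rot_win q W z).1 = z.2 := by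
  unfold rot_win
  split_ifs <;> rfl

theorem tor_snd_win {W : Set ℝ} {z : ℝ × ℝ} : (tor_win q W z).2 = z.1 := by
  unfold tor_win
  split_ifs <;> rfl

theorem win (hG : Gen q) {σ a b : ℝ} (hσ : ∀ y, (σ, y) ∉ Zq q) (hab : b < a + 1) :
    Nw q (Icc a b) =
      {z : ℝ × ℝ | z ∈ Zq q ∧ σ < z.1 ∧ z.2 < σ + 1 ∧ Qw q z (Icc a b)}.ncard := by
  classical
  rw [← rhs_win hG hσ hab]
  have hfin := ZW_fin hG hab
  set T := hfin.toFinset with hT
  have hmT : ∀ z, z ∈ T ↔ z ∈ ZW q (Icc a b) := fun z => by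
    rw [hT, Set.Finite.mem_toFinset]
  have c1 : Nw q (Icc a b) = (T.filter (fun z => z.1 < z.2)).card := by
    unfold Nw
    rw [← Set.ncard_coe_finset]
    congr 1
    ext z
    rw [Finset.mem_coe, Finset.mem_filter, hmT]
    rfl
  have c2 : {z : ℝ × ℝ | z ∈ ZW q (Icc a b) ∧ c_win σ z.1 < c_win σ z.2}.ncard =
      (T.filter (fun z => c_win σ z.1 < c_win σ z.2)).card := by
    rw [← Set.ncard_coe_finset]
    congr 1
    ext z
    rw [Finset.mem_coe, Finset.mem_filter, hmT]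
    rfl
  rw [c1, c2]
  obtain ⟨m, hm⟩ : ∃ m : ℤ, m = ⌊a - σ⌋ := ⟨_, rfl⟩
  have hfl : ∀ t ∈ Icc a b, ⌊t - σ⌋ = m ∨ ⌊t - σ⌋ = m + 1 := by
    intro t ht
    have h1 : m ≤ ⌊t - σ⌋ := by
      rw [hm]
      exact Int.floor_le_floor (by linarith [ht.1])
    have h2 : ⌊t - σ⌋ < m + 2 := by
      rw [Int.floor_lt]
      have := Int.lt_floor_add_one (a - σ)
      rw [← hm] at this
      push_cast
      linarith [ht.2]
    omega
  have key : (T.filter (fun z => ⌊z.2 - σ⌋ = m)).card = (T.filter (fun z => ⌊z.1 - σ⌋ = m)).card := by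
    refine Finset.card_nbij' (rot_win q (Icc a b)) (tor_win q (Icc a b)) ?_ ?_ ?_ ?_
    · intro z hz
      simp only [Finset.coe_filter, mem_ofPred_eq, hmT] at hz ⊢
      exact ⟨rot_mem_win hz.1, by rw [rot_fst_win]; exact hz.2⟩
    · intro z hz
      simp only [Finset.coe_filter, mem_ofPred_eq, hmT] at hz ⊢
      exact ⟨tor_mem_win hz.1, by rw [tor_snd_win]; exact hz.2⟩
    · intro z hz
      simp only [Finset.coe_filter, mem_ofPred_eq, hmT] at hz
      exact tor_rot_win hG hab hz.1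
    · intro z hz
      simp only [Finset.coe_filter, mem_ofPred_eq, hmT] at hz
      exact rot_tor_win hG hab hz.1
  have e1 := Finset.card_filter_add_card_filter_not (s := T.filter (fun z => ⌊z.1 - σ⌋ = m))
    (fun z => ⌊z.2 - σ⌋ = m)
  have e2 := Finset.card_filter_add_card_filter_not (s := T.filter (fun z => ⌊z.2 - σ⌋ = m))
    (fun z => ⌊z.1 - σ⌋ = m)
  have e3 := Finset.card_filter_add_card_filter_not (s := T.filter (fun z => z.1 < z.2))
    (fun z => (⌊z.1 - σ⌋ = m ↔ ⌊z.2 - σ⌋ = m))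
  have e4 := Finset.card_filter_add_card_filter_not
    (s := T.filter (fun z => c_win σ z.1 < c_win σ z.2))
    (fun z => (⌊z.1 - σ⌋ = m ↔ ⌊z.2 - σ⌋ = m))
  rw [Finset.filter_filter, Finset.filter_filter] at e1 e2 e3 e4
  have f1 : T.filter (fun z => ⌊z.2 - σ⌋ = m ∧ ⌊z.1 - σ⌋ = m) =
      T.filter (fun z => ⌊z.1 - σ⌋ = m ∧ ⌊z.2 - σ⌋ = m) := by
    ext z; simp only [Finset.mem_filter]; tauto
  have hcw : ∀ t ∈ Icc a b, (⌊t - σ⌋ = m → c_win σ t = t - m) ∧
      (¬ ⌊t - σ⌋ = m → c_win σ t = t - (m + 1)) := by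
    intro t ht
    constructor
    · intro h
      unfold c_win
      rw [h]
      push_cast
      ring
    · intro h
      have h' : ⌊t - σ⌋ = m + 1 := (hfl t ht).resolve_left h
      unfold c_win
      rw [h']
      push_cast
      ring
  have hlt : ∀ s ∈ Icc a b, ∀ t ∈ Icc a b, ⌊s - σ⌋ = m → ¬ ⌊t - σ⌋ = m → s < t := by
    intro s hs t ht h1 h2
    have h3 : ⌊t - σ⌋ = m + 1 := (hfl t ht).resolve_left h2
    have h4 := Int.lt_floor_add_one (s - σ)
    have h5 := Int.floor_le (t - σ)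
    rw [h1] at h4
    rw [h3] at h5
    push_cast at h5
    linarith
  have f3 : T.filter (fun z => z.1 < z.2 ∧ (⌊z.1 - σ⌋ = m ↔ ⌊z.2 - σ⌋ = m)) =
      T.filter (fun z => c_win σ z.1 < c_win σ z.2 ∧ (⌊z.1 - σ⌋ = m ↔ ⌊z.2 - σ⌋ = m)) := by
    ext z
    rw [Finset.mem_filter, Finset.mem_filter, hmT]
    refine and_congr_right fun hz => and_congr_left fun hs => ?_
    obtain ⟨hx1, hx2⟩ := hcw z.1 hz.1
    obtain ⟨hy1, hy2⟩ := hcw z.2 hz.2.1
    by_cases hx : ⌊z.1 - σ⌋ = m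
    · rw [hx1 hx, hy1 (hs.1 hx)]
      constructor <;> intro h <;> linarith
    · rw [hx2 hx, hy2 (fun h => hx (hs.2 h))]
      constructor <;> intro h <;> linarith
  have f4 : T.filter (fun z => z.1 < z.2 ∧ ¬ (⌊z.1 - σ⌋ = m ↔ ⌊z.2 - σ⌋ = m)) =
      T.filter (fun z => ⌊z.1 - σ⌋ = m ∧ ¬ ⌊z.2 - σ⌋ = m) := by
    ext z
    rw [Finset.mem_filter, Finset.mem_filter, hmT]
    refine and_congr_right fun hz => ?_
    by_cases hx : ⌊z.1 - σ⌋ = m
    · by_cases hy : ⌊z.2 - σ⌋ = m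
      · simp [hx, hy]
      · simp only [hx, hy, iff_false, not_true_eq_false, not_false_eq_true, and_true, true_and,
          iff_true]
        exact hlt _ hz.1 _ hz.2.1 hx hy
    · by_cases hy : ⌊z.2 - σ⌋ = m
      · simp only [hx, hy, iff_true, not_false_eq_true, and_true, not_true_eq_false, and_false,
          iff_false, not_lt]
        exact (hlt _ hz.2.1 _ hz.1 hy hx).le
      · simp [hx, hy]
  have f5 : T.filter (fun z => c_win σ z.1 < c_win σ z.2 ∧
      ¬ (⌊z.1 - σ⌋ = m ↔ ⌊z.2 - σ⌋ = m)) =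
      T.filter (fun z => ⌊z.2 - σ⌋ = m ∧ ¬ ⌊z.1 - σ⌋ = m) := by
    ext z
    rw [Finset.mem_filter, Finset.mem_filter, hmT]
    refine and_congr_right fun hz => ?_
    obtain ⟨hx1, hx2⟩ := hcw z.1 hz.1
    obtain ⟨hy1, hy2⟩ := hcw z.2 hz.2.1
    by_cases hx : ⌊z.1 - σ⌋ = m
    · by_cases hy : ⌊z.2 - σ⌋ = m
      · simp [hx, hy]
      · simp only [hx, hy, iff_false, not_true_eq_false, not_false_eq_true, and_true, and_false,
          not_lt]
        rw [hx1 hx, hy2 hy]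
        linarith [hz.1.1, hz.2.1.2]
    · by_cases hy : ⌊z.2 - σ⌋ = m
      · simp only [hx, hy, iff_true, not_false_eq_true, and_true, true_and]
        rw [hx2 hx, hy1 hy]
        linarith [hz.1.2, hz.2.1.1]
      · simp [hx, hy]
  rw [f1] at e2
  rw [f3, f4] at e3
  rw [f5] at e4
  omega

end Pool.Agent.H687.KC
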