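import Pool.Agent.H687.KC.Tri
import Pool.Agent.H687.KC.Win
import Pool.Agent.H687.KC.Arith

/-! All the zeros counted in overlapping windows, for curves all of whose zeros are seen in a
window. -/

set_option autoImplicit false
open Complex Set Topology Metric

namespace Pool.Agent.H687.KC

open Pool.Agent.H763R2 Pool.Agent.H763R2.An Pool.Agent.Y535.PEG Pool.Agent.H687.K4
open Pool.Agent.H763R2.Dm (NoSq floor_const)

variable {q : ℝ → ℂ}

/-- every zero is seen in one of the windows -/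
def SL (q : ℝ → ℂ) (L : ℕ) (r : ℝ) : Prop :=
  ∀ z ∈ Zq q, ∃ k : ℤ, Qw q z (Icc (((k:ℝ) - r) / L) (((k:ℝ) + r) / L))

theorem simple_img {z : ℂ} (hs : Simple q z) (L : Loop q) {t : ℝ} (e : q t = z) (W : Set ℝ) :
    z ∈ q '' W ↔ ∃ n : ℤ, t + n ∈ W := by
  obtain ⟨t0, _, _, _, _, _, _, hf⟩ := hs
  constructor
  · rintro ⟨s, hs, he⟩
    obtain ⟨n, hn⟩ := hf s he
    obtain ⟨m, hm⟩ := hf t e
    refine ⟨n - m, ?_⟩
    rw [hm]
    push_cast
    rw [show t0 + (m:ℝ) + (n - m) = t0 + n by ring, ← hn]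
    exact hs
  · rintro ⟨n, hn⟩
    exact ⟨t + n, hn, by rw [L.per_int, e]⟩

/-- the four parameters of a zero -/
theorem par4 (hG : Gen q) {z : ℝ × ℝ} (hz : z ∈ Zq q) : ∃ τ : Fin 4 → ℝ,
    (q (τ 0) = q z.1 ∧ q (τ 1) = q z.2 ∧ q (τ 2) = CC q z.1 z.2 ∧ q (τ 3) = DD q z.1 z.2) ∧
    ∀ W, Qw q z W ↔ ∀ i, ∃ n : ℤ, τ i + n ∈ W := by
  have L := hG.L
  by_cases he : q z.1 = q z.2
  · have e1 : CC q z.1 z.2 = q z.1 := by unfold CC Sq.Cv; rw [he]; ring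
    have e2 : DD q z.1 z.2 = q z.1 := by unfold DD Sq.Dv; rw [he]; ring
    refine ⟨![z.1, z.2, z.1, z.1], ⟨rfl, rfl, e1.symm, e2.symm⟩, fun W => ?_⟩
    unfold Qw
    rw [e1, e2]
    constructor
    · rintro ⟨h1, h2, -, -⟩ i
      fin_cases i
      exacts [h1, h2, h1, h1]
    · intro h
      obtain ⟨n, hn⟩ := h 0
      exact ⟨h 0, h 1, ⟨z.1 + n, hn, L.per_int _ _⟩, ⟨z.1 + n, hn, L.per_int _ _⟩⟩
  · obtain ⟨-, hD, hC⟩ := hz
    obtain ⟨-, -, sC, sD⟩ := hG.sq _ _ he hD hC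
    obtain ⟨tC, hC'⟩ := hC
    obtain ⟨tD, hD'⟩ := hD
    refine ⟨![z.1, z.2, tC, tD], ⟨rfl, rfl, hC', hD'⟩, fun W => ?_⟩
    unfold Qw
    rw [simple_img sC L hC', simple_img sD L hD']
    constructor
    · rintro ⟨h1, h2, h3, h4⟩ i
      fin_cases i
      exacts [h1, h2, h3, h4]
    · intro h
      exact ⟨h 0, h 1, h 2, h 3⟩

/-- decomposition of the number of zeros -/
theorem decomp (hG : Gen q) (hP : PLc q) {L : ℕ} (hL : 3 ≤ L) {r : ℝ} (h0 : 1 / 2 ≤ r)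
    (h1 : r < 1) (hs : SL q L r) : (1 : ZMod 2) = ∑ k ∈ Finset.Ico (0:ℤ) L,
      (((Nw q (Icc (((k:ℝ) - r) / L) (((k:ℝ) + r) / L)) : ℕ) : ZMod 2) +
       ((Nw q (Icc (((k:ℝ) + 1 - r) / L) (((k:ℝ) + r) / L)) : ℕ) : ZMod 2)) := by
  classical
  have hL3 : (3:ℝ) ≤ L := by exact_mod_cast hL
  have hL0 : (0:ℝ) < L := by linarith
  obtain ⟨σ, noz, hfin, hodd⟩ := tri_odd hG hP
  have cn : ∀ a b : ℝ, b < a + 1 → ((Nw q (Icc a b) : ℕ) : ZMod 2) =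
      ∑ z ∈ hfin.toFinset, if Qw q z (Icc a b) then 1 else 0 := by
    intro a b hab
    rw [win hG noz hab, Finset.sum_boole]
    congr 1
    rw [← Set.ncard_coe_finset]
    congr 1
    ext z
    rw [Finset.mem_coe, Finset.mem_filter, Set.Finite.mem_toFinset]
    constructor
    · rintro ⟨g1, g2, g3, g4⟩
      exact ⟨⟨g1, g2, g3⟩, g4⟩
    · rintro ⟨⟨g1, g2, g3⟩, g4⟩
      exact ⟨g1, g2, g3, g4⟩
  have e1 : ∀ k : ℤ, ((Nw q (Icc (((k:ℝ) - r) / L) (((k:ℝ) + r) / L)) : ℕ) : ZMod 2) =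
      ∑ z ∈ hfin.toFinset, if Qw q z (Icc (((k:ℝ) - r) / L) (((k:ℝ) + r) / L)) then 1 else 0 :=
    fun k => cn _ _ (by
      rw [div_add' _ _ _ hL0.ne', div_lt_div_iff_of_pos_right hL0]
      linarith)
  have e2 : ∀ k : ℤ, ((Nw q (Icc (((k:ℝ) + 1 - r) / L) (((k:ℝ) + r) / L)) : ℕ) : ZMod 2) =
      ∑ z ∈ hfin.toFinset, if Qw q z (Icc (((k:ℝ) + 1 - r) / L) (((k:ℝ) + r) / L)) then 1
        else 0 :=
    fun k => cn _ _ (by
      rw [div_add' _ _ _ hL0.ne', div_lt_div_iff_of_pos_right hL0]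
      linarith)
  simp only [e1, e2]
  rw [← Finset.sum_congr rfl (fun k _ => Finset.sum_add_distrib), Finset.sum_comm]
  have e3 : ∀ z ∈ hfin.toFinset, ∑ k ∈ Finset.Ico (0:ℤ) L,
      ((if Qw q z (Icc (((k:ℝ) - r) / L) (((k:ℝ) + r) / L)) then (1 : ZMod 2) else 0) +
       (if Qw q z (Icc (((k:ℝ) + 1 - r) / L) (((k:ℝ) + r) / L)) then (1 : ZMod 2) else 0)) =
        1 := by
    intro z hz
    rw [Set.Finite.mem_toFinset] at hz
    obtain ⟨τ, -, hτ⟩ := par4 hG hz.1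
    obtain ⟨k0, hk0⟩ := hs z hz.1
    rw [hτ] at hk0
    have h := arith τ hL h0 h1 ⟨k0, hk0⟩
    rw [Finset.sum_add_distrib, Finset.sum_boole, Finset.sum_boole]
    rw [← h]
    congr 2
    · rw [← Set.ncard_coe_finset]
      congr 1
      ext k
      rw [Finset.mem_coe, Finset.mem_filter, Finset.mem_Ico, hτ]
      rfl
    · rw [← Set.ncard_coe_finset]
      congr 1
      ext k
      rw [Finset.mem_coe, Finset.mem_filter, Finset.mem_Ico, hτ]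
      rfl
  rw [Finset.sum_congr rfl e3, Finset.sum_const, nsmul_eq_mul, mul_one,
    ← Set.ncard_eq_toFinset_card _ hfin, hodd]

end Pool.Agent.H687.KC
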