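import Pool.Agent.H687.K4.Fin

/-! KC-GLUE: continuous maps of the realisation of the complete graph from paths; paths in the
neighbourhoods of connected sets. -/

set_option autoImplicit false
open Complex Set Topology Metric

namespace Pool.Agent.H687.KC

open Pool.Agent.H687.K4

theorem thickening_preconn_gl {K : Set ℂ} (hK : IsPreconnected K) {x : ℂ} (hx : x ∈ K) {δ : ℝ}
    (hδ : 0 < δ) : IsPreconnected (thickening δ K) := by
  have hsub : K ⊆ thickening δ K := self_subset_thickening hδ K
  refine isPreconnected_of_forall x fun y hy => ?_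
  obtain ⟨z, hz, hyz⟩ := mem_thickening_iff.1 hy
  refine ⟨K ∪ ball z δ, ?_, Or.inl hx, Or.inr (mem_ball.2 hyz), ?_⟩
  · rintro w (hw | hw)
    · exact hsub hw
    · exact mem_thickening_iff.2 ⟨z, hz, mem_ball.1 hw⟩
  · exact IsPreconnected.union z hz (mem_ball_self hδ) hK (convex_ball z δ).isPreconnected

/-- paths in the neighbourhoods of a connected set -/
theorem thick_path {K : Set ℂ} (hK : IsPreconnected K) {x y : ℂ} (hx : x ∈ K) (hy : y ∈ K) {δ : ℝ}
    (hδ : 0 < δ) : ∃ γ : ℝ → ℂ, Continuous γ ∧ γ 0 = x ∧ γ 1 = y ∧ ∀ t, infDist (γ t) K < δ := by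
  have hsub : K ⊆ thickening δ K := self_subset_thickening hδ K
  have hconn : IsConnected (thickening δ K) :=
    ⟨⟨x, hsub hx⟩, thickening_preconn_gl hK hx hδ⟩
  have hpath : IsPathConnected (thickening δ K) :=
    isOpen_thickening.isConnected_iff_isPathConnected.1 hconn
  obtain ⟨p, hp⟩ := hpath.joinedIn x (hsub hx) y (hsub hy)
  refine ⟨p.extend, p.continuous_extend, p.extend_zero, p.extend_one, fun t => ?_⟩
  have h1 : p.extend t ∈ range p := by
    rw [← p.extend_range]
    exact mem_range_self t
  obtain ⟨s, hs⟩ := h1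
  rw [← hs]
  exact (mem_thickening_iff_infDist_lt ⟨x, hx⟩).1 (hp s)

/-- the bounds of the coordinates on the realisation -/
theorem real_bound_gl {n : ℕ} {x : Fin n → ℝ} (hx : x ∈ real (⊤ : SimpleGraph (Fin n)))
    {a b : Fin n} (hab : a ≠ b) : 0 ≤ x a ∧ x a ≤ 1 - x b := by
  obtain ⟨c, d, -, s, s', hs, hs', hss, rfl⟩ := hx
  have h1 : ∀ e i : Fin n, 0 ≤ (Pi.single e 1 : Fin n → ℝ) i := by
    intro e i
    by_cases h : i = e
    · rw [h, Pi.single_eq_same]; exact zero_le_one
    · rw [Pi.single_eq_of_ne h]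
  have h2 : ∀ e : Fin n, (Pi.single e 1 : Fin n → ℝ) a + (Pi.single e 1 : Fin n → ℝ) b ≤ 1 := by
    intro e
    by_cases h : a = e
    · have h' : b ≠ e := fun h' => hab (h.trans h'.symm)
      rw [h, Pi.single_eq_same, Pi.single_eq_of_ne h', add_zero]
    · rw [Pi.single_eq_of_ne h, zero_add]
      by_cases h' : b = e
      · rw [h', Pi.single_eq_same]
      · rw [Pi.single_eq_of_ne h']; exact zero_le_one
  constructor
  · change 0 ≤ s * (Pi.single c 1 : Fin n → ℝ) a + s' * (Pi.single d 1 : Fin n → ℝ) a
    exact add_nonneg (mul_nonneg hs (h1 c a)) (mul_nonneg hs' (h1 d a))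
  · change s * (Pi.single c 1 : Fin n → ℝ) a + s' * (Pi.single d 1 : Fin n → ℝ) a ≤
      1 - (s * (Pi.single c 1 : Fin n → ℝ) b + s' * (Pi.single d 1 : Fin n → ℝ) b)
    have h3 := mul_le_mul_of_nonneg_left (h2 c) hs
    have h4 := mul_le_mul_of_nonneg_left (h2 d) hs'
    linarith

/-- the contribution of one edge -/
theorem edge_cont_gl {n : ℕ} {a b : Fin n} (hab : a ≠ b) {g : ℝ → ℂ} (hg : Continuous g)
    (h1 : g 1 = 0) : ContinuousOn (fun x : Fin n → ℝ => (((x a / (1 - x b) : ℝ)) : ℂ) * g (x b))
      (real (⊤ : SimpleGraph (Fin n))) := by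
  intro x hx
  by_cases hb : x b = 1
  · have h0 : (((x a / (1 - x b) : ℝ)) : ℂ) * g (x b) = 0 := by
      rw [hb, h1, mul_zero]
    rw [ContinuousWithinAt, h0]
    have hlim : Filter.Tendsto (fun y : Fin n → ℝ => ‖g (y b)‖)
        (𝓝[real (⊤ : SimpleGraph (Fin n))] x) (𝓝 0) := by
      have h2 : Continuous fun y : Fin n → ℝ => ‖g (y b)‖ :=
        (hg.comp (continuous_apply b)).norm
      have h3 := h2.tendsto x
      rw [hb, h1, norm_zero] at h3
      exact h3.mono_left nhdsWithin_le_nhds
    refine squeeze_zero_norm' ?_ hlim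
    filter_upwards [self_mem_nhdsWithin] with y hy
    obtain ⟨k1, k2⟩ := real_bound_gl hy hab
    rw [norm_mul, Complex.norm_real, Real.norm_eq_abs]
    refine mul_le_of_le_one_left (norm_nonneg _) ?_
    rcases (k1.trans k2).eq_or_lt with h | h
    · rw [← h, div_zero, abs_zero]; exact zero_le_one
    · rw [abs_of_nonneg (div_nonneg k1 h.le), div_le_one h]
      exact k2
  · have h2 : (1 : ℝ) - x b ≠ 0 := fun h => hb (by linarith)
    refine ContinuousAt.continuousWithinAt ?_
    refine ContinuousAt.mul ?_ (hg.comp (continuous_apply b)).continuousAt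
    refine Complex.continuous_ofReal.continuousAt.comp ?_
    exact ContinuousAt.div (continuous_apply a).continuousAt
      (continuous_const.sub (continuous_apply b)).continuousAt h2

/-- gluing paths to a map of the complete graph with `n` vertices -/
theorem glue {n : ℕ} (P : Fin n → ℂ) (γ : Fin n → Fin n → ℝ → ℂ) (hγ : ∀ a b, Continuous (γ a b))
    (h0 : ∀ a b, γ a b 0 = P a) (h1 : ∀ a b, γ a b 1 = P b) :
    ∃ φ : (Fin n → ℝ) → ℂ, ContinuousOn φ (real (⊤ : SimpleGraph (Fin n))) ∧
      ∀ a b, a < b → ∀ t ∈ Icc (0:ℝ) 1, φ (ep a b t) = γ a b t := by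
  set g : Fin n → Fin n → ℝ → ℂ := fun a b t => γ a b t - (((1 - t : ℝ) : ℂ) * P a + (t : ℂ) * P b)
    with hg
  have hgc : ∀ a b, Continuous (g a b) := by
    intro a b
    rw [hg]
    simp only
    have := hγ a b
    fun_prop
  have hg0 : ∀ a b, g a b 0 = 0 := by
    intro a b
    rw [hg]
    simp only
    rw [h0]
    simp
  have hg1 : ∀ a b, g a b 1 = 0 := by
    intro a b
    rw [hg]
    simp only
    rw [h1]
    simp
  refine ⟨fun x => (∑ a, (x a : ℂ) * P a) + ∑ a, ∑ b,
    if a < b then (((x a / (1 - x b) : ℝ)) : ℂ) * g a b (x b) else 0, ?_, ?_⟩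
  · refine ContinuousOn.add ?_ ?_
    · exact Continuous.continuousOn (by fun_prop)
    · refine continuousOn_finsetSum _ fun a _ => continuousOn_finsetSum _ fun b _ => ?_
      by_cases hab : a < b
      · simp only [if_pos hab]
        exact edge_cont_gl hab.ne (hgc a b) (hg1 a b)
      · simp only [if_neg hab]
        exact continuousOn_const
  · intro a b hab t ht
    have hne : a ≠ b := hab.ne
    have ea : ep a b t a = 1 - t := by
      unfold ep
      rw [Pi.add_apply, Pi.smul_apply, Pi.smul_apply, Pi.single_eq_same,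
        Pi.single_eq_of_ne hne, smul_eq_mul, smul_eq_mul, mul_one, mul_zero, add_zero]
    have eb : ep a b t b = t := by
      unfold ep
      rw [Pi.add_apply, Pi.smul_apply, Pi.smul_apply, Pi.single_eq_same,
        Pi.single_eq_of_ne hne.symm, smul_eq_mul, smul_eq_mul, mul_one, mul_zero, zero_add]
    have ec : ∀ c, c ≠ a → c ≠ b → ep a b t c = 0 := by
      intro c hca hcb
      unfold ep
      rw [Pi.add_apply, Pi.smul_apply, Pi.smul_apply, Pi.single_eq_of_ne hca,
        Pi.single_eq_of_ne hcb, smul_zero, smul_zero, add_zero]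
    have s1 : ∑ c, ((ep a b t c : ℝ) : ℂ) * P c = ((1 - t : ℝ) : ℂ) * P a + (t : ℂ) * P b := by
      rw [Finset.sum_eq_add a b hne]
      · rw [ea, eb]
      · intro c _ hc
        rw [ec c hc.1 hc.2, Complex.ofReal_zero, zero_mul]
      · intro h; exact absurd (Finset.mem_univ _) h
      · intro h; exact absurd (Finset.mem_univ _) h
    have s2 : (∑ c, ∑ d, if c < d then (((ep a b t c / (1 - ep a b t d) : ℝ)) : ℂ) *
        g c d (ep a b t d) else 0) = g a b t := by
      rw [Finset.sum_eq_single a]
      · rw [Finset.sum_eq_single b]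
        · rw [if_pos hab, ea, eb]
          by_cases h : t = 1
          · rw [h, hg1, mul_zero]
          · have h' : (1 : ℝ) - t ≠ 0 := fun h' => h (by linarith)
            rw [div_self h', Complex.ofReal_one, one_mul]
        · intro d _ hdb
          by_cases had : a < d
          · rw [if_pos had, ec d had.ne' hdb, hg0, mul_zero]
          · rw [if_neg had]
        · intro h; exact absurd (Finset.mem_univ _) h
      · intro c _ hca
        refine Finset.sum_eq_zero fun d _ => ?_
        by_cases hcd : c < d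
        · rw [if_pos hcd]
          by_cases hcb : c = b
          · have hdb : d ≠ b := by rw [← hcb]; exact hcd.ne'
            have hda : d ≠ a := by
              intro h
              rw [h, hcb] at hcd
              exact absurd hcd hab.not_gt
            rw [ec d hda hdb, hg0, mul_zero]
          · rw [ec c hca hcb, zero_div, Complex.ofReal_zero, zero_mul]
        · rw [if_neg hcd]
      · intro h; exact absurd (Finset.mem_univ _) h
    simp only
    rw [s1, s2, hg]
    simp only
    ring

end Pool.Agent.H687.KC
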