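import Pool.Agent.H687.KC.Approx
import Pool.Agent.H687.KC.Glue

/-! Squares inscribed in systems of six plane continua. -/

set_option autoImplicit false
open Complex Set Topology Metric

namespace Pool.Agent.H687.KC

open Pool.Agent.H687.K4
open Pool.Agent.H763R2.Dm (NoSq)

theorem sqp_cont (k : Fin 4) : Continuous fun p : ℂ × ℂ => sqp p.1 p.2 k := by
  fin_cases k
  · exact continuous_fst
  · exact continuous_fst.add continuous_snd
  · show Continuous fun p : ℂ × ℂ => p.1 + p.2 + I * p.2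
    fun_prop
  · show Continuous fun p : ℂ × ℂ => p.1 + I * p.2
    fun_prop

/-- limits of squares -/
theorem sq_lim {ι : Type*} [Fintype ι] (A B : ι → Fin 4 → Set ℂ) (hA : ∀ i k, IsCompact (A i k))
    (hA0 : ∀ i k, (A i k).Nonempty) (hB : ∀ i k, IsCompact (B i k))
    (hB0 : ∀ i k, (B i k).Nonempty)
    (h : ∀ δ > 0, ∃ i z w, ∀ k, infDist (sqp z w k) (A i k) ≤ δ ∧
      infDist (sqp z w k) (B i k) ≤ δ) :
    ∃ i z w, ∀ k, sqp z w k ∈ A i k ∧ sqp z w k ∈ B i k := by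
  by_contra hcon
  push Not at hcon
  -- a bound
  have hb : Bornology.IsBounded (⋃ i, ⋃ k, A i k) := by
    rw [Bornology.isBounded_iUnion]
    intro i
    rw [Bornology.isBounded_iUnion]
    exact fun k => (hA i k).isBounded
  obtain ⟨R, hR⟩ := hb.subset_closedBall 0
  have key : ∀ i, ∃ ε > 0, ∀ z w : ℂ, ‖z‖ ≤ R + 1 → ‖w‖ ≤ 2 * (R + 1) →
      ε ≤ ∑ k, (infDist (sqp z w k) (A i k) + infDist (sqp z w k) (B i k)) := by
    intro i
    have hF : Continuous fun p : ℂ × ℂ => ∑ k, (infDist (sqp p.1 p.2 k) (A i k) +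
        infDist (sqp p.1 p.2 k) (B i k)) := by
      refine continuous_finsetSum _ fun k _ => ?_
      exact ((continuous_infDist_pt _).comp (sqp_cont k)).add
        ((continuous_infDist_pt _).comp (sqp_cont k))
    rcases (closedBall (0:ℂ) (R + 1) ×ˢ closedBall (0:ℂ) (2 * (R + 1))).eq_empty_or_nonempty with
      he | hne
    · refine ⟨1, one_pos, fun z w hz hw => ?_⟩
      have : ((z, w) : ℂ × ℂ) ∈ closedBall (0:ℂ) (R + 1) ×ˢ closedBall (0:ℂ) (2 * (R + 1)) :=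
        ⟨by simpa using hz, by simpa using hw⟩
      rw [he] at this
      exact absurd this (notMem_empty _)
    · obtain ⟨p, hp, hmin⟩ := ((isCompact_closedBall (0:ℂ) (R + 1)).prod
        (isCompact_closedBall (0:ℂ) (2 * (R + 1)))).exists_isMinOn hne hF.continuousOn
      refine ⟨∑ k, (infDist (sqp p.1 p.2 k) (A i k) + infDist (sqp p.1 p.2 k) (B i k)), ?_,
        fun z w hz hw => ?_⟩
      swap
      · have hm : ((z, w) : ℂ × ℂ) ∈
            closedBall (0:ℂ) (R + 1) ×ˢ closedBall (0:ℂ) (2 * (R + 1)) :=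
          ⟨by simpa using hz, by simpa using hw⟩
        exact isMinOn_iff.1 hmin (z, w) hm
      obtain ⟨k, hk⟩ := hcon i p.1 p.2
      refine Finset.sum_pos' (fun k _ => add_nonneg infDist_nonneg infDist_nonneg)
        ⟨k, Finset.mem_univ k, ?_⟩
      by_cases hk1 : sqp p.1 p.2 k ∈ A i k
      · have h2 := ((hB i k).isClosed.notMem_iff_infDist_pos (hB0 i k)).1 (hk hk1)
        have := infDist_nonneg (x := sqp p.1 p.2 k) (s := A i k)
        linarith
      · have h2 := ((hA i k).isClosed.notMem_iff_infDist_pos (hA0 i k)).1 hk1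
        have := infDist_nonneg (x := sqp p.1 p.2 k) (s := B i k)
        linarith
  obtain ⟨ε, hε, hk⟩ := exists_min (P := fun i ε => ∀ z w : ℂ, ‖z‖ ≤ R + 1 →
      ‖w‖ ≤ 2 * (R + 1) →
      ε ≤ ∑ k, (infDist (sqp z w k) (A i k) + infDist (sqp z w k) (B i k)))
    (fun i x y h hyx _ z w hz hw => hyx.trans (h z w hz hw)) key
  obtain ⟨i, z, w, H⟩ := h (min 1 (ε / 16)) (by positivity)
  have nr : ∀ k, ‖sqp z w k‖ ≤ R + 1 := by
    intro k
    obtain ⟨y, hy, hd⟩ := (hA i k).exists_infDist_eq_dist (hA0 i k) (sqp z w k)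
    have h1 := (H k).1
    rw [hd] at h1
    have h2 : ‖y‖ ≤ R := by
      have := hR (mem_iUnion.2 ⟨i, mem_iUnion.2 ⟨k, hy⟩⟩)
      simpa using this
    have h3 := norm_le_norm_add_norm_sub' (sqp z w k) y
    rw [← dist_eq_norm] at h3
    have h4 : min 1 (ε / 16) ≤ 1 := min_le_left _ _
    linarith
  have hz : ‖z‖ ≤ R + 1 := nr 0
  have hw : ‖w‖ ≤ 2 * (R + 1) := by
    have h1 : ‖z + w‖ ≤ R + 1 := nr 1
    have h2 := norm_sub_le (z + w) z
    rw [add_sub_cancel_left] at h2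
    linarith
  have h1 := hk i z w hz hw
  have h2 : ∑ k, (infDist (sqp z w k) (A i k) + infDist (sqp z w k) (B i k)) ≤
      ∑ _k : Fin 4, (ε / 16 + ε / 16) := Finset.sum_le_sum fun k _ =>
    add_le_add ((H k).1.trans (min_le_right _ _)) ((H k).2.trans (min_le_right _ _))
  rw [Finset.sum_const, Finset.card_univ, Fintype.card_fin, nsmul_eq_mul] at h2
  push_cast at h2
  linarith

theorem infDist_trans {S T : Set ℂ} {p : ℂ} {δ : ℝ} (hS : S.Nonempty)
    (h : ∀ s ∈ S, infDist s T ≤ δ) : infDist p T ≤ infDist p S + δ := by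
  refine le_of_forall_pos_le_add fun r hr => ?_
  obtain ⟨s, hs, hd⟩ := (infDist_lt_iff hS).1 (show infDist p S < infDist p S + r by linarith)
  have h1 := infDist_le_infDist_add_dist (s := T) (x := p) (y := s)
  linarith [h s hs]

/-- squares inscribed in systems of six plane continua -/
theorem continua (a : Fin 4 → ℂ) (E : Fin 4 → Fin 4 → Set ℂ) (hs : ∀ x y, E x y = E y x)
    (hc : ∀ x y, x ≠ y → IsCompact (E x y)) (hp : ∀ x y, x ≠ y → IsPreconnected (E x y))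
    (h0 : ∀ x y, x ≠ y → a x ∈ E x y ∧ a y ∈ E x y) :
    ∃ (l : Fin 4) (v : ZMod (l.val + 1) → Fin 4) (z w : ℂ) (e f : Fin 4 → Fin 4),
      IsCyc ⊤ v ∧ (∀ k, e k ≠ f k) ∧ (∀ x, ∃ k, x ≠ e k ∧ x ≠ f k) ∧
      ∀ k, sqp z w k ∈ E (e k) (f k) ∧ ∃ i, sqp z w k ∈ E (v i) (v (i + 1)) := by
  let β : Type := {p : ((l : Fin 4) × (ZMod (l.val + 1) → Fin 4)) × (Fin 4 → Fin 4) ×
    (Fin 4 → Fin 4) // IsCyc ⊤ p.1.2 ∧ (∀ k, p.2.1 k ≠ p.2.2 k) ∧
      (∀ x, ∃ k, x ≠ p.2.1 k ∧ x ≠ p.2.2 k)}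
  have : Finite β := Subtype.finite
  have : Fintype β := Fintype.ofFinite β
  have hadj : ∀ (p : β) (i : ZMod (p.1.1.1.val + 1)), p.1.1.2 i ≠ p.1.1.2 (i + 1) := fun p i =>
    (p.2.1.adj i).ne
  obtain ⟨p, z, w, H⟩ := sq_lim (ι := β) (fun p k => E (p.1.2.1 k) (p.1.2.2 k))
    (fun p _ => ⋃ i, E (p.1.1.2 i) (p.1.1.2 (i + 1))) (fun p k => hc _ _ (p.2.2.1 k))
    (fun p k => ⟨_, (h0 _ _ (p.2.2.1 k)).1⟩)
    (fun p _ => isCompact_iUnion fun i => hc _ _ (hadj p i))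
    (fun p _ => ⟨_, mem_iUnion.2 ⟨0, (h0 _ _ (hadj p 0)).1⟩⟩) (fun δ hδ => by
      have ex : ∀ x y : Fin 4, ∃ γ : ℝ → ℂ, Continuous γ ∧ γ 0 = a x ∧ γ 1 = a y ∧
          (x ≠ y → ∀ t, infDist (γ t) (E x y) < δ / 2) := by
        intro x y
        by_cases hxy : x = y
        · refine ⟨fun _ => a x, continuous_const, rfl, by rw [hxy], fun h => absurd hxy h⟩
        · obtain ⟨γ, g1, g2, g3, g4⟩ := thick_path (hp x y hxy) (h0 x y hxy).1 (h0 x y hxy).2
            (half_pos hδ)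
          exact ⟨γ, g1, g2, g3, fun _ => g4⟩
      choose γ g1 g2 g3 g4 using ex
      obtain ⟨φ, hφ, hφe⟩ := glue a γ g1 g2 g3
      have edge : ∀ x y : Fin 4, x ≠ y → ∀ s ∈ φ '' segment ℝ (Pi.single x 1 : Fin 4 → ℝ)
          (Pi.single y 1), infDist s (E x y) ≤ δ / 2 := by
        have lt : ∀ x y : Fin 4, x < y → ∀ s ∈ φ '' segment ℝ (Pi.single x 1 : Fin 4 → ℝ)
            (Pi.single y 1), infDist s (E x y) ≤ δ / 2 := by
          rintro x y hxy _ ⟨u, ⟨b, c, hb, hc, hbc, rfl⟩, rfl⟩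
          have e1 : b • (Pi.single x 1 : Fin 4 → ℝ) + c • Pi.single y 1 = ep x y c := by
            unfold ep
            rw [show 1 - c = b by linarith]
          rw [e1, hφe x y hxy c ⟨hc, by linarith⟩]
          exact (g4 x y hxy.ne c).le
        intro x y hxy s hs'
        rcases lt_or_gt_of_ne hxy with h | h
        · exact lt x y h s hs'
        · rw [segment_symm] at hs'
          rw [hs]
          exact lt y x h s hs'
      obtain ⟨l, v, C, z, w, e, f, n1, n2, n3⟩ := approx φ hφ (half_pos hδ)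
      refine ⟨⟨(⟨l, v⟩, e, f), C, n1, n2⟩, z, w, fun k => ⟨?_, ?_⟩⟩
      · have := infDist_trans (p := sqp z w k) (S := φ '' segment ℝ (Pi.single (e k) 1 : Fin 4 → ℝ)
          (Pi.single (f k) 1)) ⟨_, mem_image_of_mem φ (left_mem_segment ℝ _ _)⟩
          (edge (e k) (f k) (n1 k))
        have h1 := (n3 k).1
        simp only
        linarith
      · have := infDist_trans (p := sqp z w k) (S := φ '' track v)
          (T := ⋃ i, E (v i) (v (i + 1))) (δ := δ / 2)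
          ⟨_, mem_image_of_mem φ ⟨0, left_mem_segment ℝ _ _⟩⟩ (by
            rintro _ ⟨u, ⟨i, hi⟩, rfl⟩
            have h1 := edge (v i) (v (i + 1)) (C.adj i).ne _ (mem_image_of_mem φ hi)
            refine le_trans ?_ h1
            exact infDist_le_infDist_of_subset (subset_iUnion (fun i => E (v i) (v (i + 1))) i)
              ⟨_, (h0 _ _ (C.adj i).ne).1⟩)
        have h1 := (n3 k).2
        simp only
        linarith)
  obtain ⟨⟨⟨⟨l, v⟩, e, f⟩, C, n1, n2⟩, z, w, H⟩ := (⟨p, z, w, H⟩ : ∃ (p : β) (z w : ℂ), ∀ k,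
    sqp z w k ∈ E (p.1.2.1 k) (p.1.2.2 k) ∧ sqp z w k ∈ ⋃ i, E (p.1.1.2 i) (p.1.1.2 (i + 1)))
  exact ⟨l, v, z, w, e, f, C, n1, n2, fun k => ⟨(H k).1, mem_iUnion.1 (H k).2⟩⟩

end Pool.Agent.H687.KC
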