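import Pool.Agent.H687.KC.Base
import Pool.Agent.H687.K4.Fam

/-! Charges of the corners and edges when all zeros of the approximations are seen in windows. -/

set_option autoImplicit false
open Complex Set Topology Metric

namespace Pool.Agent.H687.KC

open Pool.Agent.H763R2 Pool.Agent.H763R2.An Pool.Agent.Y535.PEG Pool.Agent.H687.K4
open Pool.Agent.H763R2.Dm (NoSq floor_const)

variable {n L M : ℕ} {v : ℤ → Fin n} {ψ : (Fin n → ℝ) → ℂ} {r : ℝ}

theorem win_c (W : Walk L v) (hM : r * M < M - 1) (d : Ix n M → ℂ) (κ : Ix n M → ℝ) (k : ℤ) :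
    Nw (qv M L v d κ) (Icc (((k:ℝ) - r) / L) (((k:ℝ) + r) / L)) =
      Nw (PP d κ (sc M (v (k - 1)) (v k) (v (k + 1)))) (Icc (-(r * M)) (r * M)) ∧
    Nx (qv M L v d κ) (Icc (((k:ℝ) - r) / L) (((k:ℝ) + r) / L)) =
      Nx (PP d κ (sc M (v (k - 1)) (v k) (v (k + 1)))) (Icc (-(r * M)) (r * M)) := by
  have h3 := W.L3
  have hL0 : (0:ℝ) < L := by
    have : 0 < L := by omega
    exact_mod_cast this
  rcases lt_or_ge r 0 with hr | hr
  · have e1 : Icc (((k:ℝ) - r) / L) (((k:ℝ) + r) / L) = ∅ := Icc_eq_empty (by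
      rw [not_le, div_lt_div_iff_of_pos_right hL0]; linarith)
    have hM0 : (0:ℝ) < M := by
      rcases Nat.eq_zero_or_pos M with h | h
      · rw [h] at hM; norm_num at hM
      · exact_mod_cast h
    have e2 : Icc (-(r * M)) (r * M) = ∅ := Icc_eq_empty (by
      rw [not_le]; nlinarith)
    rw [e1, e2]
    unfold Nw Nx ZW
    simp
  have hM1 : (1:ℝ) < M := by
    have : 0 ≤ r * M := by positivity
    linarith
  have hM0 : 0 < M := by
    have : (0:ℝ) < M := by linarith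
    exact_mod_cast this
  have h4 : 0 < L * M := by positivity
  have hm0 : (0:ℝ) < ((L * M : ℕ) : ℝ) := by exact_mod_cast h4
  have hcong : ∀ t ∈ Icc (((k:ℝ) - r) / L) (((k:ℝ) + r) / L),
      PP d κ (sc M (v (k - 1)) (v k) (v (k + 1))) (((L * M : ℕ) : ℝ) * t - k * M) =
        qv M L v d κ t := by
    intro t ht
    rw [W.qv_PP (by omega)]
    have h1 := ht.1
    have h2 := ht.2
    rw [div_le_iff₀ hL0] at h1
    rw [le_div_iff₀ hL0] at h2
    have a1 : ((k:ℝ) - r) * M ≤ t * L * M := mul_le_mul_of_nonneg_right h1 (by linarith)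
    have a2 : t * L * M ≤ ((k:ℝ) + r) * M := mul_le_mul_of_nonneg_right h2 (by linarith)
    have := PP_congr (d := d) (k := κ) (σ' := sc M (v (k - 1)) (v k) (v (k + 1))) (σ := sv M v)
      (A := -(M:ℤ) + 1) (B := M - 1) (n0 := k * M)
      (fun N h1 h2 => sc_sv (by omega) (by omega)) (s := ((L * M : ℕ) : ℝ) * t - k * M)
      (by push_cast; linarith) (by push_cast; linarith)
    rw [this]
    congr 1
    push_cast; ring
  have himg : (fun t => ((L * M : ℕ) : ℝ) * t - k * M) ''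
      (Icc (((k:ℝ) - r) / L) (((k:ℝ) + r) / L)) = Icc (-(r * (M:ℝ))) (r * M) := by
    rw [img_aff hm0]
    congr 1
    · push_cast; field_simp; ring
    · push_cast; field_simp; ring
  rw [← himg]
  exact ⟨(Nw_mono (aff_mono hm0) hcong).symm, (Nx_mono (aff_mono hm0) hcong).symm⟩

theorem win_e (W : Walk L v) (hr : 0 ≤ r) (hM : r * M < M - 1) (d : Ix n M → ℂ)
    (κ : Ix n M → ℝ) (k : ℤ) :
    Nw (qv M L v d κ) (Icc (((k:ℝ) + 1 - r) / L) (((k:ℝ) + r) / L)) =
      Nw (PP d κ (ix M (v k) (v (k + 1)))) (Icc ((1 - r) * M) (r * M)) ∧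
    Nx (qv M L v d κ) (Icc (((k:ℝ) + 1 - r) / L) (((k:ℝ) + r) / L)) =
      Nx (PP d κ (ix M (v k) (v (k + 1)))) (Icc ((1 - r) * M) (r * M)) := by
  have h3 := W.L3
  have hL0 : (0:ℝ) < L := by
    have : 0 < L := by omega
    exact_mod_cast this
  have hM1 : (1:ℝ) < M := by
    have : 0 ≤ r * M := by positivity
    linarith
  have hM0 : 0 < M := by
    have : (0:ℝ) < M := by linarith
    exact_mod_cast this
  have h4 : 0 < L * M := by positivity
  have hm0 : (0:ℝ) < ((L * M : ℕ) : ℝ) := by exact_mod_cast h4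
  have hcong : ∀ t ∈ Icc (((k:ℝ) + 1 - r) / L) (((k:ℝ) + r) / L),
      PP d κ (ix M (v k) (v (k + 1))) (((L * M : ℕ) : ℝ) * t - k * M) =
        qv M L v d κ t := by
    intro t ht
    rw [W.qv_PP (by omega)]
    have h1 := ht.1
    have h2 := ht.2
    rw [div_le_iff₀ hL0] at h1
    rw [le_div_iff₀ hL0] at h2
    have a1 : ((k:ℝ) + 1 - r) * M ≤ t * L * M := mul_le_mul_of_nonneg_right h1 (by linarith)
    have a2 : t * L * M ≤ ((k:ℝ) + r) * M := mul_le_mul_of_nonneg_right h2 (by linarith)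
    have := PP_congr (d := d) (k := κ) (σ' := ix M (v k) (v (k + 1))) (σ := sv M v)
      (A := 1) (B := M - 1) (n0 := k * M)
      (fun N h1 h2 => by
        rw [show N + k * (M:ℤ) = k * M + N by ring, sv_at (by omega) (by omega)])
      (s := ((L * M : ℕ) : ℝ) * t - k * M)
      (by push_cast; linarith) (by push_cast; linarith)
    rw [this]
    congr 1
    push_cast; ring
  have himg : (fun t => ((L * M : ℕ) : ℝ) * t - k * M) ''
      (Icc (((k:ℝ) + 1 - r) / L) (((k:ℝ) + r) / L)) = Icc ((1 - r) * (M:ℝ)) (r * M) := by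
    rw [img_aff hm0]
    congr 1
    · push_cast; field_simp; ring
    · push_cast; field_simp; ring
  rw [← himg]
  exact ⟨(Nw_mono (aff_mono hm0) hcong).symm, (Nx_mono (aff_mono hm0) hcong).symm⟩

/-- charge of a corner -/
noncomputable def Cn (r : ℝ) (d : Ix n M → ℂ) (κ : Ix n M → ℝ) (a b c : Fin n) : ZMod 2 :=
  ((Nw (PP d κ (sc M a b c)) (Icc (-(r * M)) (r * M)) : ℕ) : ZMod 2)

/-- charge of an edge -/
noncomputable def En (r : ℝ) (d : Ix n M → ℂ) (κ : Ix n M → ℝ) (a b : Fin n) : ZMod 2 :=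
  ((Nw (PP d κ (ix M a b)) (Icc ((1 - r) * M) (r * M)) : ℕ) : ZMod 2)

theorem sym_c (W : Walk L v) (hr : r < 1) (hM2 : 2 ≤ M) (hM : r * M < M - 1)
    {d : Ix n M → ℂ} {κ : Ix n M → ℝ} (G : Gf d κ) (k : ℤ) :
    Cn r d κ (v (k - 1)) (v k) (v (k + 1)) = Cn r d κ (v (k + 1)) (v k) (v (k - 1)) := by
  have hG := (W.gen hM2 G).1
  obtain ⟨h1, h2⟩ := win_c W hM d κ k
  have hL3 : (3:ℝ) ≤ L := by exact_mod_cast W.L3
  have hL0 : (0:ℝ) < L := by linarith
  have h3 := Nw_Nx hG (a := ((k:ℝ) - r) / L) (b := ((k:ℝ) + r) / L) (by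
    rw [div_add' _ _ _ hL0.ne', div_lt_div_iff_of_pos_right hL0]
    linarith)
  rw [h1, h2] at h3
  have hne : v (k - 1) ≠ v k := by
    have := W.ne1 (k - 1)
    rwa [sub_add_cancel] at this
  unfold Cn
  rw [h3, Nx_rev (Q' := PP d κ (sc M (v (k + 1)) (v k) (v (k - 1)))) (fun t => by
    rw [PP_rev (sc_symm hne (W.ne1 k)), neg_neg])]

theorem sym_e (W : Walk L v) (hr0 : 0 ≤ r) (hr : r < 1) (hM2 : 2 ≤ M) (hM : r * M < M - 1)
    {d : Ix n M → ℂ} {κ : Ix n M → ℝ} (G : Gf d κ) (k : ℤ) :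
    En r d κ (v k) (v (k + 1)) = En r d κ (v (k + 1)) (v k) := by
  have hG := (W.gen hM2 G).1
  obtain ⟨h1, h2⟩ := win_e W hr0 hM d κ k
  have hL3 : (3:ℝ) ≤ L := by exact_mod_cast W.L3
  have hL0 : (0:ℝ) < L := by linarith
  have h3 := Nw_Nx hG (a := ((k:ℝ) + 1 - r) / L) (b := ((k:ℝ) + r) / L) (by
    rw [div_add' _ _ _ hL0.ne', div_lt_div_iff_of_pos_right hL0]
    linarith)
  rw [h1, h2] at h3
  unfold En
  rw [h3, Nx_rev' (m := M) (Q' := PP d κ (ix M (v (k + 1)) (v k))) (by ring) (fun t => by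
    rw [PP_rev (ix_symm (W.ne1 k)), neg_sub]
    have := PP_congr (d := d) (k := κ) (σ' := ix M (v k) (v (k + 1)))
      (σ := ix M (v k) (v (k + 1))) (A := ⌊t - M⌋) (B := ⌊t - M⌋ + 1) (n0 := M) (fun N _ _ => by
        have := ix_per (M := M) (a := v k) (b := v (k + 1)) N 1
        rw [mul_one] at this
        exact this.symm) (s := t - M) (Int.floor_le _) (by push_cast; exact Int.lt_floor_add_one _)
    rw [this]
    push_cast
    rw [sub_add_cancel])]

/-- charges of the corners and of the edges -/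
theorem family {β : Type*} [Fintype β] {K : β → Set (Fin n → ℝ)}
    (hψ : ∀ i, ContinuousOn ψ (K i)) (L : β → ℕ) (v : β → ℤ → Fin n)
    (W : ∀ i, Walk (L i) (v i)) (hK : ∀ i s, ev (v i) s ∈ K i) {ε : ℝ} (hε : 0 < ε)
    (hr0 : 1 / 2 ≤ r) (hr : r < 1)
    (hsl : ∀ i, ∀ q : ℝ → ℂ, Gen q → (∀ t, ‖q t - cv ψ (L i) (v i) t‖ ≤ ε) → SL q (L i) r) :
    ∃ (X : Fin n → Fin n → Fin n → ZMod 2) (E : Fin n → Fin n → ZMod 2),
      (∀ i k, X (v i (k - 1)) (v i k) (v i (k + 1)) = X (v i (k + 1)) (v i k) (v i (k - 1))) ∧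
      (∀ i k, E (v i k) (v i (k + 1)) = E (v i (k + 1)) (v i k)) ∧
      ∀ i, (1 : ZMod 2) = ∑ k ∈ Finset.Ico (0:ℤ) (L i),
        (X (v i (k - 1)) (v i k) (v i (k + 1)) + E (v i k) (v i (k + 1))) := by
  obtain ⟨C, hC⟩ : ∃ C : ℝ, C = (1 + 2 * n * n) * (1 + 2 * n * n) + 1 := ⟨_, rfl⟩
  have hC0 : 0 < C := by rw [hC]; positivity
  obtain ⟨ε', hε'⟩ : ∃ ε' : ℝ, ε' = ε / (2 * C) := ⟨_, rfl⟩
  have hε0 : 0 < ε' := by rw [hε']; positivity
  choose N0 hN0 hN using fun i => ((W i).cv_loop (hψ i) (hK i)).fine hε0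
  obtain ⟨N1, hN1⟩ := exists_nat_gt (1 / (1 - r))
  obtain ⟨M, hMd⟩ : ∃ M, M = 5 + N1 + ∑ i, N0 i := ⟨_, rfl⟩
  have hM5 : 5 ≤ M := by omega
  have hMr : r * M < M - 1 := by
    have h1 : (N1:ℝ) ≤ M := by
      have : N1 ≤ M := by omega
      exact_mod_cast this
    have h2 : 1 / (1 - r) < M := lt_of_lt_of_le hN1 h1
    rw [div_lt_iff₀ (by linarith)] at h2
    linarith
  have hMi : ∀ i, N0 i ≤ M := fun i => by
    have := Finset.single_le_sum (f := N0) (fun i _ => Nat.zero_le _) (Finset.mem_univ i)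
    omega
  have : NeZero M := ⟨by omega⟩
  obtain ⟨d, κ, G, hcl⟩ := exGf (ι := Ix n M) d0 d0_ne (fun z => An.cr (d0 z) (p0 ψ z))
    (half_pos hε)
  have hclose : ∀ i t, ‖qv M (L i) (v i) d κ t - cv ψ (L i) (v i) t‖ ≤ ε := by
    intro i t
    refine (W i).close (by omega) hcl (ε' := ε') (fun s t hst => ?_) ?_ t
    · refine hN i M (hMi i) s t (hst.trans ?_)
      have h3 : (3:ℝ) ≤ L i := by exact_mod_cast (W i).L3
      have h5 : (5:ℝ) ≤ M := by exact_mod_cast hM5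
      push_cast
      rw [div_le_div_iff₀ (by positivity) (by positivity)]
      nlinarith
    · rw [← hC, hε']
      have : C * (ε / (2 * C)) = ε / 2 := by field_simp
      rw [this]; linarith
  refine ⟨Cn r d κ, En r d κ, fun i k => sym_c (W i) hr (by omega) hMr G k,
    fun i k => sym_e (W i) (by linarith) hr (by omega) hMr G k, fun i => ?_⟩
  have hg := (W i).gen (by omega) G
  rw [decomp hg.1 hg.2 (W i).L3 hr0 hr (hsl i _ hg.1 (hclose i))]
  refine Finset.sum_congr rfl fun k _ => ?_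
  rw [(win_c (W i) hMr d κ k).1, (win_e (W i) (by linarith) hMr d κ k).1]
  rfl

end Pool.Agent.H687.KC
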