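import Pool.Agent.H687.KC.Cont

/-! Final forms of the theorem on the complete graph with four vertices. -/

set_option autoImplicit false
open Complex Set Topology Metric

namespace Pool.Agent.H687.KC

open Pool.Agent.H687.K4
open Pool.Agent.H763R2.Dm (NoSq)

/-- six plane continua joining four points in pairs -/
def Sys (a : Fin 4 → ℂ) (E : Sym2 (Fin 4) → Set ℂ) : Prop :=
  ∀ x y, x ≠ y → IsCompact (E s(x, y)) ∧ IsPreconnected (E s(x, y)) ∧ a x ∈ E s(x, y) ∧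
    a y ∈ E s(x, y)

/-- The four vertices of the square lie on the sets of some edges without common vertex, and in the
union of the sets of the edges of a cycle. -/
def Spread (E : Sym2 (Fin 4) → Set ℂ) (z w : ℂ) : Prop :=
  ∃ (L : ℕ) (v : ZMod L → Fin 4) (e : Fin 4 → Sym2 (Fin 4)), 3 ≤ L ∧ Function.Injective v ∧
    (∀ k, ¬ (e k).IsDiag) ∧ (∀ x, ∃ k, x ∉ e k) ∧
    ∀ k, sqp z w k ∈ E (e k) ∧ ∃ i, sqp z w k ∈ E s(v i, v (i + 1))

theorem spread (a : Fin 4 → ℂ) (E : Sym2 (Fin 4) → Set ℂ) (h : Sys a E) : ∃ z w, Spread E z w := by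
  obtain ⟨l, v, z, w, e, f, C, n1, n2, n3⟩ := continua a (fun x y => E s(x, y))
    (fun x y => by rw [Sym2.eq_swap]) (fun x y hxy => (h x y hxy).1)
    (fun x y hxy => (h x y hxy).2.1) (fun x y hxy => (h x y hxy).2.2)
  refine ⟨z, w, l.val + 1, v, fun k => s(e k, f k), C.three, C.inj, fun k => ?_, fun x => ?_, n3⟩
  · rw [Sym2.mk_isDiag_iff]; exact n1 k
  · obtain ⟨k, hk⟩ := n2 x
    refine ⟨k, ?_⟩
    rw [Sym2.mem_iff, not_or]
    exact hk

/-- edges without common vertex contain two opposite edges or a triangle -/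
theorem nocommon {e : Fin 4 → Sym2 (Fin 4)} (h1 : ∀ k, ¬ (e k).IsDiag) (h2 : ∀ x, ∃ k, x ∉ e k) :
    (∃ j k, ∀ x, ¬ (x ∈ e j ∧ x ∈ e k)) ∨ ∃ (a b c : Fin 4) (i j k : Fin 4), a ≠ b ∧ b ≠ c ∧
      a ≠ c ∧ e i = s(a, b) ∧ e j = s(b, c) ∧ e k = s(a, c) := by
  by_cases ho : ∃ j k, ∀ x, ¬ (x ∈ e j ∧ x ∈ e k)
  · exact Or.inl ho
  right
  push Not at ho
  obtain ⟨a, b, hab⟩ : ∃ a b, e 0 = s(a, b) := ⟨_, _, (Quot.out_eq (e 0)).symm⟩
  have hne : a ≠ b := fun h => h1 0 (by rw [hab, h]; exact Sym2.mk_isDiag_iff.2 rfl)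
  obtain ⟨k, hk⟩ := h2 a
  obtain ⟨x, x1, x2⟩ := ho 0 k
  have hxb : x = b := by
    rw [hab, Sym2.mem_iff] at x1
    rcases x1 with h | h
    · rw [h] at x2; exact absurd x2 hk
    · exact h
  subst hxb
  obtain ⟨c, hc⟩ := Sym2.mem_iff_exists.1 x2
  have hxc : x ≠ c := fun h => h1 k (by rw [hc, h]; exact Sym2.mk_isDiag_iff.2 rfl)
  have hac : a ≠ c := fun h => hk (by rw [hc, h]; exact Sym2.mem_mk_right _ _)
  obtain ⟨m, hm⟩ := h2 x
  obtain ⟨y, y1, y2⟩ := ho 0 m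
  have hya : y = a := by
    rw [hab, Sym2.mem_iff] at y1
    rcases y1 with h | h
    · exact h
    · rw [h] at y2; exact absurd y2 hm
  subst hya
  obtain ⟨d, hd⟩ := Sym2.mem_iff_exists.1 y2
  have hxd : x ≠ d := fun h => hm (by rw [hd, h]; exact Sym2.mem_mk_right _ _)
  obtain ⟨u, u1, u2⟩ := ho k m
  rw [hc, Sym2.mem_iff] at u1
  rw [hd, Sym2.mem_iff] at u2
  have hdc : d = c := by
    rcases u1 with rfl | rfl
    · rcases u2 with h | h
      · exact absurd h.symm hne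
      · exact absurd h hxd
    · rcases u2 with h | h
      · exact absurd h.symm hac
      · exact h.symm
  rw [hdc] at hd
  exact ⟨y, x, c, 0, k, m, hne, hxc, hac, hab, hc, hd⟩

/-- the square is not degenerate -/
theorem Spread.ne {E : Sym2 (Fin 4) → Set ℂ} {z w : ℂ} (h : Spread E z w)
    (h1 : ∀ e f : Sym2 (Fin 4), ¬ e.IsDiag → ¬ f.IsDiag → (∀ x, ¬ (x ∈ e ∧ x ∈ f)) →
      Disjoint (E e) (E f))
    (h2 : ∀ x y z, x ≠ y → y ≠ z → x ≠ z → E s(x, y) ∩ E s(y, z) ∩ E s(x, z) = ∅) : w ≠ 0 := by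
  rintro rfl
  obtain ⟨L, v, e, -, -, n1, n2, n3⟩ := h
  have hz : ∀ k, z ∈ E (e k) := by
    intro k
    have := (n3 k).1
    have e1 : sqp z 0 k = z := by
      fin_cases k <;> simp [sqp]
    rwa [e1] at this
  rcases nocommon n1 n2 with ⟨j, k, hjk⟩ | ⟨a, b, c, i, j, k, hab, hbc, hac, e1, e2, e3⟩
  · exact Set.disjoint_left.1 (h1 _ _ (n1 j) (n1 k) hjk) (hz j) (hz k)
  · have h3 : z ∈ E s(a, b) ∩ E s(b, c) ∩ E s(a, c) :=
      ⟨⟨by rw [← e1]; exact hz i, by rw [← e2]; exact hz j⟩, by rw [← e3]; exact hz k⟩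
    rw [h2 a b c hab hbc hac] at h3
    exact h3

/-- the closed edges of the realisation -/
def edge {n : ℕ} (e : Sym2 (Fin n)) : Set (Fin n → ℝ) :=
  {x | ∃ a b, e = s(a, b) ∧ x ∈ segment ℝ (Pi.single a 1) (Pi.single b 1)}

theorem edge_mk {n : ℕ} (a b : Fin n) :
    edge s(a, b) = segment ℝ (Pi.single a 1 : Fin n → ℝ) (Pi.single b 1) := by
  ext x
  constructor
  · rintro ⟨c, d, h, hx⟩
    rw [Sym2.eq_iff] at h
    rcases h with ⟨rfl, rfl⟩ | ⟨rfl, rfl⟩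
    · exact hx
    · rw [segment_symm]; exact hx
  · intro hx
    exact ⟨a, b, rfl, hx⟩

theorem edge_supp {n : ℕ} {e : Sym2 (Fin n)} {x : Fin n → ℝ} (hx : x ∈ edge e) (i : Fin n)
    (hi : i ∉ e) : x i = 0 := by
  obtain ⟨a, b, rfl, s, t, -, -, -, rfl⟩ := hx
  rw [Sym2.mem_iff, not_or] at hi
  simp [hi.1, hi.2]

theorem edge_sum {n : ℕ} {e : Sym2 (Fin n)} {x : Fin n → ℝ} (hx : x ∈ edge e) : x ≠ 0 := by
  obtain ⟨a, b, -, s, t, hs, ht, hst, rfl⟩ := hx
  intro h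
  have h1 := congrArg (fun f : Fin n → ℝ => ∑ i, f i) h
  simp only [Pi.add_apply, Pi.smul_apply, smul_eq_mul, Finset.sum_add_distrib,
    ← Finset.mul_sum, Finset.sum_pi_single', Finset.mem_univ, if_true, mul_one, Pi.zero_apply,
    Finset.sum_const_zero] at h1
  linarith

theorem edge_real {e : Sym2 (Fin 4)} (he : ¬ e.IsDiag) : edge e ⊆ real (⊤ : SimpleGraph (Fin 4)) := by
  rintro x ⟨a, b, rfl, hx⟩
  exact ⟨a, b, by rw [SimpleGraph.top_adj]; exact fun h => he (Sym2.mk_isDiag_iff.2 h), hx⟩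

/-- squares in the topological complete graph -/
theorem jordan (φ : (Fin 4 → ℝ) → ℂ) (hφ : ContinuousOn φ (real ⊤)) (hi : InjOn φ (real ⊤)) :
    ∃ γ : Circle → ℂ, Continuous γ ∧ Function.Injective γ ∧ range γ ⊆ φ '' real ⊤ ∧
      ∃ (z w : ℂ) (e : Fin 4 → Sym2 (Fin 4)), w ≠ 0 ∧ (∀ k, ¬ (e k).IsDiag) ∧
        (∀ x, ∃ k, x ∉ e k) ∧ ∀ k, sqp z w k ∈ range γ ∩ φ '' edge (e k) := by
  have hsub : ∀ x y : Fin 4, x ≠ y → edge s(x, y) ⊆ real (⊤ : SimpleGraph (Fin 4)) := fun x y h =>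
    edge_real (by rw [Sym2.mk_isDiag_iff]; exact h)
  obtain ⟨z, w, h⟩ := spread (fun x => φ (Pi.single x 1)) (fun e => φ '' edge e) (by
    intro x y hxy
    refine ⟨?_, ?_, mem_image_of_mem φ ?_, mem_image_of_mem φ ?_⟩
    · refine IsCompact.image_of_continuousOn ?_ (hφ.mono (hsub x y hxy))
      rw [edge_mk, segment_eq_image]
      exact isCompact_Icc.image (by fun_prop)
    · refine IsPreconnected.image ?_ _ (hφ.mono (hsub x y hxy))
      rw [edge_mk]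
      exact (convex_segment _ _).isPreconnected
    · rw [edge_mk]; exact left_mem_segment ℝ _ _
    · rw [edge_mk]; exact right_mem_segment ℝ _ _)
  have hw : w ≠ 0 := h.ne (fun e f he hf hef => by
      rw [Set.disjoint_left]
      rintro _ ⟨x, hx, rfl⟩ ⟨y, hy, hxy⟩
      have := hi (edge_real hf hy) (edge_real he hx) hxy
      subst this
      refine edge_sum hx (funext fun i => ?_)
      by_cases h1 : i ∈ e
      · exact edge_supp hy i fun h2 => hef i ⟨h1, h2⟩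
      · exact edge_supp hx i h1)
    (fun a b c hab hbc hac => by
      rw [Set.eq_empty_iff_forall_notMem]
      rintro _ ⟨⟨⟨x, hx, rfl⟩, ⟨y, hy, hxy⟩⟩, ⟨t, ht, hxt⟩⟩
      have e1 := hi (hsub b c hbc hy) (hsub a b hab hx) hxy
      have e2 := hi (hsub a c hac ht) (hsub a b hab hx) hxt
      subst e1
      subst e2
      refine edge_sum hx (funext fun i => ?_)
      by_cases h1 : i = a
      · exact edge_supp hy i (by rw [Sym2.mem_iff, h1]; tauto)
      · by_cases h2 : i = b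
        · exact edge_supp ht i (by
            rw [Sym2.mem_iff, h2]
            rintro (h | h)
            · exact hab h.symm
            · exact hbc h)
        · exact edge_supp hx i (by rw [Sym2.mem_iff]; tauto))
  obtain ⟨L, v, e, hL, hv, n1, n2, n3⟩ := h
  have C := cyc_top hL hv
  obtain ⟨γ, g1, g2, g3⟩ := C.circle (hφ.mono C.track_sub) (hi.mono C.track_sub)
  refine ⟨γ, g1, g2, by rw [g3]; exact image_mono C.track_sub, z, w, e, hw, n1, n2, fun k =>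
    ⟨?_, (n3 k).1⟩⟩
  rw [g3]
  obtain ⟨i, x, hx, hxk⟩ := (n3 k).2
  rw [edge_mk] at hx
  exact ⟨x, ⟨i, hx⟩, hxk⟩

end Pool.Agent.H687.KC
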