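import Pool.Agent.H687.KC.Fam
import Pool.Agent.H687.K4.K4

/-! Squares near a map of the complete graph with four vertices. -/

set_option autoImplicit false
open Complex Set Topology Metric

namespace Pool.Agent.H687.KC

open Pool.Agent.H763R2 Pool.Agent.H763R2.An Pool.Agent.Y535.PEG Pool.Agent.H687.K4
open Pool.Agent.H763R2.Dm (NoSq floor_const)

/-- the vertices of the square with sides `w` and `i w` at the vertex `z` -/
def sqp (z w : ℂ) : Fin 4 → ℂ := ![z, z + w, z + w + I * w, z + I * w]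

/-- combinatorics of the labels -/
theorem lab (α β : Fin 4 → Fin 4) (Pr : Fin 4 → Fin 4 → Fin 4 → Prop)
    (h1 : ∀ k, α k = β k → ∀ b, b ≠ α k → Pr k (α k) b) (h2 : ∀ k, α k ≠ β k → Pr k (α k) (β k))
    (hno : ∀ x, ∃ k, x ≠ α k ∧ x ≠ β k) : ∃ e f : Fin 4 → Fin 4, (∀ k, e k ≠ f k) ∧
      (∀ x, ∃ k, x ≠ e k ∧ x ≠ f k) ∧ ∀ k, Pr k (e k) (f k) := by
  have o1 : ∀ a : Fin 4, ∃ b, b ≠ a := by decide
  have o2 : ∀ a b : Fin 4, ∃ c d, c ≠ a ∧ c ≠ b ∧ d ≠ a ∧ d ≠ b ∧ c ≠ d := by decide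
  have o3 : ∀ a b c : Fin 4, ∃ d, d ≠ a ∧ d ≠ b ∧ d ≠ c := by decide
  choose o ho using o1
  by_cases hA : ∀ k, α k ≠ β k
  · exact ⟨α, β, hA, hno, fun k => h2 k (hA k)⟩
  push Not at hA
  obtain ⟨j, hj⟩ := hA
  obtain ⟨i, hi1, hi2⟩ := hno (α j)
  have hij : i ≠ j := by rintro rfl; exact hi1 rfl
  by_cases hi : α i = β i
  · obtain ⟨c, d, c1, c2, d1, d2, cd⟩ := o2 (α j) (α i)
    refine ⟨α, fun k => if α k ≠ β k then β k else if k = j then c else if k = i then d else
      o (α k), fun k => ?_, fun x => ?_, fun k => ?_⟩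
    · by_cases h : α k ≠ β k
      · simp only [if_pos h]; exact h
      · simp only [if_neg h]
        by_cases hkj : k = j
        · rw [if_pos hkj, hkj]; exact c1.symm
        · rw [if_neg hkj]
          by_cases hki : k = i
          · rw [if_pos hki, hki]; exact d2.symm
          · rw [if_neg hki]; exact (ho _).symm
    · by_contra hx
      push Not at hx
      have x1 := hx j
      have x2 := hx i
      simp only [hj, hi, ne_eq, not_true_eq_false, if_false, if_true, if_neg hij] at x1 x2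
      rw [← hj] at x1
      rw [← hi] at x2
      by_cases e1 : x = α j
      · have := x2 (by rw [e1]; exact hi1)
        exact d1 (by rw [← this, e1])
      · have e2 := x1 e1
        by_cases e3 : x = α i
        · exact c2 (by rw [← e2, e3])
        · exact cd (by rw [← e2, x2 e3])
    · by_cases h : α k ≠ β k
      · simp only [if_pos h]; exact h2 k h
      · simp only [if_neg h]
        rw [not_not] at h
        refine h1 k h _ ?_
        by_cases hkj : k = j
        · rw [if_pos hkj, hkj]; exact c1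
        · rw [if_neg hkj]
          by_cases hki : k = i
          · rw [if_pos hki, hki]; exact d2
          · rw [if_neg hki]; exact ho _
  · obtain ⟨d, d1, d2, d3⟩ := o3 (α j) (α i) (β i)
    refine ⟨α, fun k => if α k ≠ β k then β k else if k = j then d else o (α k),
      fun k => ?_, fun x => ?_, fun k => ?_⟩
    · by_cases h : α k ≠ β k
      · simp only [if_pos h]; exact h
      · simp only [if_neg h]
        by_cases hkj : k = j
        · rw [if_pos hkj, hkj]; exact d1.symm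
        · rw [if_neg hkj]; exact (ho _).symm
    · by_contra hx
      push Not at hx
      have x1 := hx j
      have x2 := hx i
      simp only [hj, ne_eq, not_true_eq_false, if_false, if_true] at x1
      simp only [ne_eq, hi, not_false_eq_true, if_true] at x2
      rw [← hj] at x1
      by_cases e1 : x = α j
      · have := x2 (by rw [e1]; exact hi1)
        exact hi2 (by rw [← this, e1])
      · have e2 := x1 e1
        by_cases e3 : x = α i
        · exact d2 (by rw [← e2, e3])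
        · exact d3 (by rw [← e2, x2 e3])
    · by_cases h : α k ≠ β k
      · simp only [if_pos h]; exact h2 k h
      · simp only [if_neg h]
        rw [not_not] at h
        refine h1 k h _ ?_
        by_cases hkj : k = j
        · rw [if_pos hkj, hkj]; exact d1
        · rw [if_neg hkj]; exact ho _

variable {L : ℕ} {v : ZMod L → Fin 4} {φ : (Fin 4 → ℝ) → ℂ}

/-- the walk of a cycle -/
def wk {n : ℕ} (v : ZMod L → Fin n) : ℤ → Fin n := fun k : ℤ => v (k : ZMod L)

/-- types of the points of a cycle -/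
theorem typ (C : IsCyc (⊤ : SimpleGraph (Fin 4)) v) {δ κ : ℝ} (hκ : 0 < κ) (hκ2 : κ ≤ 1 / 2)
    (hu : ∀ s t : ℝ, |s - t| ≤ κ → ‖φ (ev (wk v) s) - φ (ev (wk v) t)‖ ≤ δ / 2) (hδ : 0 < δ)
    (t : ℝ) (p : ℂ) (hp : ‖p - cv φ L (wk v) t‖ ≤ δ / 2) : ∃ α β : Fin 4,
      (α = β → ∀ b, b ≠ α → infDist p (φ '' segment ℝ (Pi.single α 1) (Pi.single b 1)) ≤ δ) ∧
      (α ≠ β → infDist p (φ '' segment ℝ (Pi.single α 1) (Pi.single β 1)) ≤ δ) ∧
      (∀ x, x = α ∨ x = β → x ∈ range (wk v)) ∧
      (∀ j : ℤ, (wk v j = α ∨ wk v j = β) → ∃ n : ℤ, t + n ∈ Icc (((j:ℝ) - (1 - κ)) / L)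
        (((j:ℝ) + (1 - κ)) / L)) := by
  have W := C.walk
  have hL3 : (3:ℝ) ≤ L := by exact_mod_cast C.three
  have hL0 : (0:ℝ) < L := by linarith
  obtain ⟨s, hs⟩ : ∃ s, s = L * t := ⟨_, rfl⟩
  have hts : t = s / L := by rw [hs, mul_div_cancel_left₀ _ hL0.ne']
  have hcv : cv φ L (wk v) t = φ (ev (wk v) s) := by unfold cv; rw [hs]
  rw [hcv] at hp
  obtain ⟨m, hm⟩ : ∃ m, m = ⌊s⌋ := ⟨_, rfl⟩
  obtain ⟨f, hf⟩ : ∃ f, f = Int.fract s := ⟨_, rfl⟩
  have f0 : 0 ≤ f := by rw [hf]; exact Int.fract_nonneg s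
  have f1 : f < 1 := by rw [hf]; exact Int.fract_lt_one s
  have hsm : s = m + f := by rw [hm, hf]; exact (Int.floor_add_fract s).symm
  have hev : ev (wk v) s = ep (wk v m) (wk v (m + 1)) f := by unfold ev; rw [hm, hf]
  -- windows
  have win : ∀ (j i : ℤ), wk v j = wk v i → s ≤ i + (1 - κ) → (i:ℝ) - (1 - κ) ≤ s → ∃ n : ℤ,
      t + n ∈ Icc (((j:ℝ) - (1 - κ)) / L) (((j:ℝ) + (1 - κ)) / L) := by
    intro j i h h1 h2
    obtain ⟨n, hn⟩ := W.inj i j h.symm
    refine ⟨n, ?_⟩
    have hj : (j:ℝ) = i + L * n := by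
      have : j = i + L * n := by linarith
      exact_mod_cast this
    rw [hts, hj, show s / L + n = (s + L * n) / L by field_simp]
    constructor
    · rw [div_le_div_iff_of_pos_right hL0]; linarith
    · rw [div_le_div_iff_of_pos_right hL0]; linarith
  -- nearness of a vertex
  have vert : ∀ i : ℤ, |s - i| ≤ κ → ∀ b, infDist p (φ '' segment ℝ
      (Pi.single (wk v i) 1 : Fin 4 → ℝ) (Pi.single b 1)) ≤ δ := by
    intro i hi b
    have h1 := hu s i hi
    have h2 : ev (wk v) (i:ℝ) = Pi.single (wk v i) 1 := by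
      have := ev_on (v := wk v) i (r := 0) le_rfl zero_le_one
      rw [add_zero] at this
      rw [this]; unfold ep; simp
    rw [h2] at h1
    refine (infDist_le_dist_of_mem (mem_image_of_mem _ (left_mem_segment ℝ _ _))).trans ?_
    rw [dist_eq_norm]
    have := norm_add_le (p - φ (ev (wk v) s)) (φ (ev (wk v) s) - φ (Pi.single (wk v i) 1))
    rw [sub_add_sub_cancel] at this
    linarith
  rcases lt_or_ge f κ with hc | hc
  · refine ⟨wk v m, wk v m, fun _ b _ => vert m ?_ b, fun h => absurd rfl h,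
      fun x hx => ⟨m, by rcases hx with h | h <;> exact h.symm⟩, fun j hj => ?_⟩
    · rw [hsm, add_sub_cancel_left, abs_of_nonneg f0]; exact hc.le
    · rw [or_self] at hj
      exact win j m hj (by rw [hsm]; linarith) (by rw [hsm]; linarith)
  · rcases le_or_gt f (1 - κ) with hc' | hc'
    · refine ⟨wk v m, wk v (m + 1), fun h => absurd h (W.ne1 m), fun _ => ?_,
        fun x hx => by rcases hx with h | h <;> exact ⟨_, h.symm⟩, fun j hj => ?_⟩
      · refine (infDist_le_dist_of_mem (mem_image_of_mem _ (ep_mem _ _ f0 f1.le))).trans ?_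
        rw [dist_eq_norm, ← hev]
        linarith
      · rcases hj with hj | hj
        · exact win j m hj (by rw [hsm]; linarith) (by rw [hsm]; linarith)
        · exact win j (m + 1) hj (by rw [hsm]; push_cast; linarith)
            (by rw [hsm]; push_cast; linarith)
    · refine ⟨wk v (m + 1), wk v (m + 1), fun _ b _ => vert (m + 1) ?_ b, fun h => absurd rfl h,
        fun x hx => ⟨m + 1, by rcases hx with h | h <;> exact h.symm⟩, fun j hj => ?_⟩
      · rw [hsm, abs_le]; push_cast; constructor <;> linarith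
      · rw [or_self] at hj
        exact win j (m + 1) hj (by rw [hsm]; push_cast; linarith)
          (by rw [hsm]; push_cast; linarith)

/-- there are labels without common vertex such that the points are near their edges and near the
cycle -/
def Near (φ : (Fin 4 → ℝ) → ℂ) (δ : ℝ) (v : ZMod L → Fin 4) : Prop :=
  ∃ (z w : ℂ) (e f : Fin 4 → Fin 4), (∀ k, e k ≠ f k) ∧ (∀ x, ∃ k, x ≠ e k ∧ x ≠ f k) ∧
    ∀ k, infDist (sqp z w k) (φ '' segment ℝ (Pi.single (e k) 1) (Pi.single (f k) 1)) ≤ δ ∧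
      infDist (sqp z w k) (φ '' track v) ≤ δ

theorem sl_of (C : IsCyc (⊤ : SimpleGraph (Fin 4)) v) {δ κ : ℝ} (hκ : 0 < κ) (hκ2 : κ ≤ 1 / 2)
    (hu : ∀ s t : ℝ, |s - t| ≤ κ → ‖φ (ev (wk v) s) - φ (ev (wk v) t)‖ ≤ δ / 2) (hδ : 0 < δ)
    (hno : ¬ Near φ δ v) {q : ℝ → ℂ} (hG : Gen q)
    (hq : ∀ t, ‖q t - cv φ L (wk v) t‖ ≤ δ / 2) : SL q L (1 - κ) := by
  intro z hz
  obtain ⟨τ, ⟨t0, t1, t2, t3⟩, hτ⟩ := par4 hG hz
  choose α β h1 h2 h3 h4 using fun k => typ C hκ hκ2 hu hδ (τ k) (q (τ k)) (hq (τ k))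
  have hsq : ∀ k, q (τ k) = sqp (q z.1) (q z.2 - q z.1) k := by
    intro k
    fin_cases k
    · exact t0
    · show q (τ 1) = q z.1 + (q z.2 - q z.1)
      rw [t1]; ring
    · show q (τ 2) = q z.1 + (q z.2 - q z.1) + I * (q z.2 - q z.1)
      rw [t2]; unfold CC Sq.Cv; ring
    · show q (τ 3) = q z.1 + I * (q z.2 - q z.1)
      rw [t3]; unfold DD Sq.Dv; ring
  by_contra hcon
  refine hno ?_
  have hx : ∀ x, ∃ k, x ≠ α k ∧ x ≠ β k := by
    intro x
    by_contra hx
    push Not at hx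
    refine hcon ?_
    have hor : ∀ k, x = α k ∨ x = β k := fun k => by
      by_cases h : x = α k
      · exact Or.inl h
      · exact Or.inr (hx k h)
    obtain ⟨j, hj⟩ := h3 0 x (hor 0)
    exact ⟨j, (hτ _).2 fun i => h4 i j (by rw [hj]; exact hor i)⟩
  obtain ⟨e, f, g1, g2, g3⟩ := lab α β (fun k a b => infDist (q (τ k)) (φ '' segment ℝ
    (Pi.single a 1 : Fin 4 → ℝ) (Pi.single b 1)) ≤ δ) h1 h2 hx
  refine ⟨q z.1, q z.2 - q z.1, e, f, g1, g2, fun k => ?_⟩
  rw [← hsq k]
  refine ⟨g3 k, ?_⟩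
  refine (infDist_le_dist_of_mem (mem_image_of_mem φ (ev_track v (L * τ k)))).trans ?_
  rw [dist_eq_norm]
  have := hq (τ k)
  unfold cv at this
  exact this.trans (by linarith)

end Pool.Agent.H687.KC
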