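import Pool.Agent.H687.K4.Count

/-! The number of zeros in a triangle of parameters is odd, without any closeness assumption. -/

set_option autoImplicit false
open Complex Set Topology Metric

namespace Pool.Agent.H687.KC

open Pool.Agent.H763R2 Pool.Agent.H763R2.An Pool.Agent.Y535.PEG Pool.Agent.H687.K4
open Pool.Agent.H763R2.Dm (NoSq floor_const)

variable {q : ℝ → ℂ} {M : ℂ → ℝ} {κ : ZMod 2}

/-- the small staircase has odd winding -/
theorem ss_odd (hG : Gen q) (S : Sg q M κ) (h0 : ∀ y, (0, y) ∉ Zq q) {e : ℂ} {η1 : ℝ}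
    (he : e ≠ 0) (hη1 : 0 < η1) (hl : Lin q 0 e η1) {ρ : ℝ} (hρ0 : 0 < ρ) : ∃ η > 0, η < ρ ∧
      η < 1 / 2 ∧ (∀ x y, (x, y) ∈ Zq q → |x| ≤ 3 → ∀ n : ℤ, η < |x - n| ∧ η < |y - n|) ∧
      Pw (SS (GG q M) η) 1 := by
  classical
  have L := hG.L
  have J : Inj0 q := fun t h1 h2 h => h0 t (dbl_mem h1 (by linarith) h.symm)
  have nz : ∀ x y, (x, y) ∈ UU → (x, y) ∉ Zq q → GG q M x y ≠ 0 := fun x y hU hz h =>
    hz ((Zq_iff L S hU).1 h)
  have hz : NZ0 q M := by
    intro y h1 h2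
    have u1 : ((0, y) : ℝ × ℝ) ∈ UU := ⟨h1, by simp only; linarith⟩
    have u2 : ((y, 1) : ℝ × ℝ) ∈ UU := ⟨h2, by simp only; linarith⟩
    refine ⟨GG_ne.1 (nz _ _ u1 (h0 y)), GG_ne.1 (nz _ _ u2 fun h => ?_)⟩
    have := (nint L h0 h 1).2
    simp at this
  obtain ⟨ε, F⟩ := flat_base L J he hη1 hl
  obtain ⟨m0, hm0⟩ := loc_of_flat L J S rfl F
  obtain ⟨η0, hη0, hmar⟩ := margin hG h0
  obtain ⟨k, hk⟩ := exists_nat_one_div_lt (show 0 < min (min η0 ρ) (1 / 2) by positivity)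
  set m := m0 + (k + 1) with hm
  have hmk : (1 : ℝ) / m ≤ 1 / (k + 1) := by
    apply one_div_le_one_div_of_le (by positivity)
    rw [hm]; push_cast
    have : (0:ℝ) ≤ m0 := Nat.cast_nonneg m0
    linarith
  have hm1 := hmk.trans_lt hk
  have hml := hm0 m (by omega)
  set η : ℝ := 1 / m with hη
  have hηp : 0 < η := by
    rw [hη]; apply one_div_pos.2
    have : 0 < m := by omega
    exact_mod_cast this
  simp only [lt_min_iff] at hm1
  obtain ⟨⟨hη2, hη3⟩, hη4⟩ := hm1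
  have hmar' : ∀ x y, (x, y) ∈ Zq q → |x| ≤ 3 → ∀ n : ℤ, η < |x - n| ∧ η < |y - n| :=
    fun x y h hx n => ⟨hη2.trans (hmar x y h hx n).1, hη2.trans (hmar x y h hx n).2⟩
  have nzm : ∀ x y, (x, y) ∈ UU → |x| ≤ 3 → ∀ n : ℤ, (|x - n| ≤ η ∨ |y - n| ≤ η) →
      GG q M x y ≠ 0 := by
    intro x y hU hx n h
    refine nz x y hU fun hz => ?_
    obtain ⟨a1, a2⟩ := hmar' x y hz hx n
    rcases h with h | h <;> linarith
  have hne : ∀ x y, Stc η (x, y) → GG q M x y ≠ 0 := by
    intro x y h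
    obtain ⟨hU, hx, n, hn⟩ := Stc_UU hηp hη4 h
    exact nzm x y hU hx n hn
  refine ⟨η, hηp, hη3, hη4, hmar', ?_⟩
  rcases hml with Λ | Λ
  · exact SS_odd L S hz Λ hne
  · have hz' : NZ0 q (fun z => - M z) := by
      intro y h1 h2
      have := hz y h1 h2
      simpa using this
    have := SS_odd L (S.neg L) hz' Λ (fun x y h => by
      rw [GG_neg]; exact neg_ne_zero.2 (hne x y h))
    have e1 : GG q (fun z => - M z) = fun x y => - GG q M x y := by
      funext x y; exact GG_neg x y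
    rw [e1, SS_neg hηp hη4 (GG_cont L S.cont) hne] at this
    exact this

theorem dl_const {w : ℂ} (hw : w ≠ 0) {a b : ℝ} (hab : a ≤ b) : dl (fun _ => w) a b = 0 := by
  rw [dl_eq (K := fun _ => log w) hab continuousOn_const (fun _ _ => exp_log hw), sub_self]

/-- a function that is constant on an initial interval -/
theorem dl_cl {f g : ℝ → ℂ} {a b c : ℝ} (hab : a ≤ b) (hbc : b ≤ c) (hg : Continuous g)
    (h0 : ∀ t ∈ Icc a c, g t ≠ 0) (h1 : ∀ t ∈ Icc a b, g t = g b)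
    (h2 : ∀ t ∈ Icc b c, g t = f t) : dl g a c = dl f b c := by
  rw [dl_add hab hbc hg h0, dl_congr hab hg (fun t ht => h0 t ⟨ht.1, ht.2.trans hbc⟩)
    (f' := fun _ => g b) h1, dl_const (h0 b ⟨hab, hbc⟩) hab, zero_add,
    dl_congr hbc hg (fun t ht => h0 t ⟨hab.trans ht.1, ht.2⟩) h2]

variable {F : ℝ → ℝ → ℂ}

/-- the clamped map -/
noncomputable def gc (F : ℝ → ℝ → ℂ) (r x y : ℝ) : ℂ := F x (max y (x + r))

theorem gc_cont (hF : Continuous fun p : ℝ × ℝ => F p.1 p.2) (r : ℝ) :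
    Continuous fun p : ℝ × ℝ => gc F r p.1 p.2 :=
  hF.comp (f := fun p : ℝ × ℝ => ((p.1, max p.2 (p.1 + r)) : ℝ × ℝ)) (by fun_prop)

theorem gc_hi {r x y : ℝ} (h : x + r ≤ y) : gc F r x y = F x y := by
  unfold gc; rw [max_eq_left h]

theorem gc_lo {r x y : ℝ} (h : y ≤ x + r) : gc F r x y = F x (x + r) := by
  unfold gc; rw [max_eq_right h]

/-- comparison of the staircase with the tiny chords -/
theorem clamp (hF : Continuous fun p : ℝ × ℝ => F p.1 p.2)
    (hper : ∀ x y, F (x + 1) (y + 1) = F x y) {r η : ℝ} (hr : 0 < r) (hrη : r < η)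
    (hη : η < 1 / 4) (n0 : ∀ x, F x (x + r) ≠ 0)
    (n1 : ∀ x ∈ Icc 0 η, ∀ y ∈ Icc (x + r) (1 - η), F x y ≠ 0)
    (n2 : ∀ y ∈ Icc (η + r) 1, F η y ≠ 0) (n3 : ∀ x ∈ Icc η (1 - η), F x 1 ≠ 0)
    (n4 : ∀ x ∈ Icc (1 - η) 1, ∀ y ∈ Icc (x + r) (1 + η), F x y ≠ 0) :
    Wd (gc F r) η (1 - η) r 1 + SS F η = dl (fun x => F x (x + r)) 0 1 := by
  have hg := gc_cont hF r
  have hT : Continuous fun x => F x (x + r) :=
    hF.comp (f := fun x : ℝ => ((x, x + r) : ℝ × ℝ)) (by fun_prop)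
  have w1 : Wd (gc F r) 0 η r (1 - η) = 0 := by
    refine Wd_zero hg (by linarith) (by linarith) fun x hx y hy => ?_
    unfold gc
    exact n1 x hx _ ⟨le_max_right _ _, max_le hy.2 (by linarith [hx.2])⟩
  have w3 : Wd (gc F r) (1 - η) 1 (1 - η + r) (1 + η) = 0 := by
    refine Wd_zero hg (by linarith) (by linarith) fun x hx y hy => ?_
    unfold gc
    exact n4 x hx _ ⟨le_max_right _ _, max_le hy.2 (by linarith [hx.2])⟩
  have nn : ∀ x y, x + r ≤ y → F x y ≠ 0 → gc F r x y ≠ 0 := fun x y h h' => by rwa [gc_hi h]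
  -- sides of the first rectangle
  have a1 : dl (fun x => gc F r x r) 0 η = dl (fun x => F x (x + r)) 0 η :=
    dl_congr (by linarith) (Gx hg r) (fun t ht => by rw [gc_lo (by linarith [ht.1])]; exact n0 t)
      (fun t ht => gc_lo (by linarith [ht.1]))
  have a2 : dl (fun y => gc F r η y) r (1 - η) = dl (fun y => F η y) (η + r) (1 - η) :=
    dl_cl (by linarith) (by linarith) (Gy hg η) (fun t ht => by
      unfold gc
      exact n2 _ ⟨le_max_right _ _, max_le (by linarith [ht.2]) (by linarith)⟩)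
      (fun t ht => by rw [gc_lo ht.2, gc_lo le_rfl]) (fun t ht => gc_hi ht.1)
  have a3 : dl (fun x => gc F r x (1 - η)) 0 η = dl (fun x => F x (1 - η)) 0 η :=
    dl_congr (by linarith) (Gx hg _) (fun t ht => by
      rw [gc_hi (by linarith [ht.2])]
      exact n1 t ht _ ⟨by linarith [ht.2], le_rfl⟩) (fun t ht => gc_hi (by linarith [ht.2]))
  have a4 : dl (fun y => gc F r 0 y) r (1 - η) = dl (fun y => F 0 y) r (1 - η) :=
    dl_congr (by linarith) (Gy hg 0) (fun t ht => by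
      rw [gc_hi (by linarith [ht.1])]
      exact n1 0 ⟨le_rfl, by linarith⟩ _ ⟨by linarith [ht.1], ht.2⟩)
      (fun t ht => gc_hi (by linarith [ht.1]))
  -- sides of the second rectangle
  have b1 : dl (fun x => gc F r x r) η (1 - η) = dl (fun x => F x (x + r)) η (1 - η) :=
    dl_congr (by linarith) (Gx hg r) (fun t ht => by rw [gc_lo (by linarith [ht.1])]; exact n0 t)
      (fun t ht => gc_lo (by linarith [ht.1]))
  have b2 : dl (fun y => gc F r (1 - η) y) r 1 = dl (fun y => F (1 - η) y) (1 - η + r) 1 :=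
    dl_cl (by linarith) (by linarith) (Gy hg _) (fun t ht => by
      unfold gc
      exact n4 _ ⟨le_rfl, by linarith⟩ _
        ⟨le_max_right _ _, max_le (by linarith [ht.2]) (by linarith)⟩)
      (fun t ht => by rw [gc_lo ht.2, gc_lo le_rfl]) (fun t ht => gc_hi ht.1)
  have b3 : dl (fun x => gc F r x 1) η (1 - η) = dl (fun x => F x 1) η (1 - η) :=
    dl_congr (by linarith) (Gx hg _) (fun t ht => by
      rw [gc_hi (by linarith [ht.2])]
      exact n3 t ht) (fun t ht => gc_hi (by linarith [ht.2]))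
  have b4 : dl (fun y => gc F r η y) r 1 = dl (fun y => F η y) (η + r) 1 :=
    dl_cl (by linarith) (by linarith) (Gy hg η) (fun t ht => by
      unfold gc
      exact n2 _ ⟨le_max_right _ _, max_le (by linarith [ht.2]) (by linarith)⟩)
      (fun t ht => by rw [gc_lo ht.2, gc_lo le_rfl]) (fun t ht => gc_hi ht.1)
  -- sides of the third rectangle
  have c1 : dl (fun x => gc F r x (1 - η + r)) (1 - η) 1 = dl (fun x => F x (x + r)) (1 - η) 1 :=
    dl_congr (by linarith) (Gx hg _) (fun t ht => by rw [gc_lo (by linarith [ht.1])]; exact n0 t)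
      (fun t ht => gc_lo (by linarith [ht.1]))
  have c2 : dl (fun y => gc F r 1 y) (1 - η + r) (1 + η) = dl (fun y => F 1 y) (1 + r) (1 + η) :=
    dl_cl (by linarith) (by linarith) (Gy hg _) (fun t ht => by
      unfold gc
      exact n4 _ ⟨by linarith, le_rfl⟩ _
        ⟨le_max_right _ _, max_le (by linarith [ht.2]) (by linarith)⟩)
      (fun t ht => by rw [gc_lo ht.2, gc_lo le_rfl]) (fun t ht => gc_hi ht.1)
  have c2' : dl (fun y => F 0 y) r η = dl (fun y => F 1 y) (1 + r) (1 + η) := by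
    rw [add_comm 1 r, add_comm 1 η]
    refine dl_shift hrη.le (Gy hF 0) (fun t ht => n1 0 ⟨le_rfl, by linarith⟩ _
      ⟨by linarith [ht.1], by linarith [ht.2]⟩) fun t ht => ?_
    have := hper 0 t
    rw [zero_add] at this
    exact this.symm
  have c3 : dl (fun x => gc F r x (1 + η)) (1 - η) 1 = dl (fun x => F x (1 + η)) (1 - η) 1 :=
    dl_congr (by linarith) (Gx hg _) (fun t ht => by
      rw [gc_hi (by linarith [ht.2])]
      exact n4 t ht _ ⟨by linarith [ht.2], le_rfl⟩) (fun t ht => gc_hi (by linarith [ht.2]))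
  have c4 : dl (fun y => gc F r (1 - η) y) (1 - η + r) (1 + η) =
      dl (fun y => F (1 - η) y) (1 - η + r) (1 + η) :=
    dl_congr (by linarith) (Gy hg _) (fun t ht => by
      rw [gc_hi ht.1]
      exact n4 _ ⟨le_rfl, by linarith⟩ _ ⟨ht.1, ht.2⟩) (fun t ht => gc_hi ht.1)
  -- subdivisions
  have s1 : dl (fun y => F 0 y) r (1 - η) = dl (fun y => F 0 y) r η +
      dl (fun y => F 0 y) η (1 - η) :=
    dl_add hrη.le (by linarith) (Gy hF 0) (fun t ht => n1 0 ⟨le_rfl, by linarith⟩ _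
      ⟨by linarith [ht.1], ht.2⟩)
  have s2 : dl (fun y => F η y) (η + r) 1 = dl (fun y => F η y) (η + r) (1 - η) +
      dl (fun y => F η y) (1 - η) 1 := dl_add (by linarith) (by linarith) (Gy hF _) n2
  have s3 : dl (fun y => F (1 - η) y) (1 - η + r) (1 + η) =
      dl (fun y => F (1 - η) y) (1 - η + r) 1 + dl (fun y => F (1 - η) y) 1 (1 + η) :=
    dl_add (by linarith) (by linarith) (Gy hF _) (fun t ht => n4 _ ⟨le_rfl, by linarith⟩ _ ht)
  have s4 : dl (fun x => F x (x + r)) 0 1 = dl (fun x => F x (x + r)) 0 η +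
      dl (fun x => F x (x + r)) η (1 - η) + dl (fun x => F x (x + r)) (1 - η) 1 := by
    rw [dl_add (b := η) (by linarith) (by linarith) hT (fun t _ => n0 t),
      dl_add (a := η) (b := 1 - η) (by linarith) (by linarith) hT (fun t _ => n0 t)]
    ring
  unfold Wd at w1 w3 ⊢
  rw [a1, a2, a3, a4, s1] at w1
  rw [c1, c2, c3, c4, ← c2', s3] at w3
  rw [b1, b2, b3, b4, s2, s4]
  unfold SS
  linear_combination -w1 - w3

end Pool.Agent.H687.KC
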