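import Pool.Agent.H687.KC.Par

/-! The number of zeros in a triangle of parameters is odd. -/

set_option autoImplicit false
open Complex Set Topology Metric

namespace Pool.Agent.H687.KC

open Pool.Agent.H763R2 Pool.Agent.H763R2.An Pool.Agent.Y535.PEG Pool.Agent.H687.K4
open Pool.Agent.H763R2.Dm (NoSq floor_const)

variable {q : ℝ → ℂ}

theorem Zq_shift (q : ℝ → ℂ) (σ x y : ℝ) :
    (x, y) ∈ Zq (fun t => q (t + σ)) ↔ (x + σ, y + σ) ∈ Zq q := by
  have h1 : DD (fun t => q (t + σ)) x y = DD q (x + σ) (y + σ) := rfl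
  have h2 : CC (fun t => q (t + σ)) x y = CC q (x + σ) (y + σ) := rfl
  unfold Zq UU
  simp only [mem_ofPred_eq]
  rw [range_shift, h1, h2]
  constructor
  · rintro ⟨⟨h3, h4⟩, h5⟩
    exact ⟨⟨by linarith, by linarith⟩, h5⟩
  · rintro ⟨⟨h3, h4⟩, h5⟩
    exact ⟨⟨by linarith, by linarith⟩, h5⟩

/-- the zeros in the triangle -/
def Tr (q : ℝ → ℂ) (σ : ℝ) : Set (ℝ × ℝ) := {z | z ∈ Zq q ∧ σ < z.1 ∧ z.2 < σ + 1}

theorem Tr_Pd (σ : ℝ) : Tr q σ ⊆ Zq q ∩ Pd σ := by
  rintro z ⟨h, h1, h2⟩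
  have := h.1.1
  exact ⟨h, h1.le, by linarith⟩

/-- the double points in the triangle are half of the double points -/
theorem Dp_half (hG : Gen q) {σ : ℝ} (noz : ∀ y, (σ, y) ∉ Zq q) :
    (Dp q ∩ Pd σ).ncard = 2 * (Dp q ∩ Tr q σ).ncard := by
  have L := hG.L
  have fin1 : (Dp q ∩ Pd σ).Finite := (Pd_fin hG σ).subset fun z hz => ⟨Dp_Zq hz.1, hz.2⟩
  have h1 : Dp q ∩ Pd σ = (Dp q ∩ Tr q σ) ∪ (Dp q ∩ (Pd σ ∩ {z | σ + 1 ≤ z.2})) := by
    ext z
    constructor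
    · rintro ⟨hd, hp⟩
      rcases lt_or_ge z.2 (σ + 1) with h | h
      · refine Or.inl ⟨hd, Dp_Zq hd, lt_of_le_of_ne hp.1 fun he => ?_, h⟩
        have := noz z.2
        rw [he] at this
        exact this (Dp_Zq hd)
      · exact Or.inr ⟨hd, hp, h⟩
    · rintro (⟨hd, ht⟩ | ⟨hd, hp, -⟩)
      · exact ⟨hd, (Tr_Pd σ ht).2⟩
      · exact ⟨hd, hp⟩
  have h2 : (Dp q ∩ (Pd σ ∩ {z | σ + 1 ≤ z.2})).ncard = (Dp q ∩ Tr q σ).ncard := by
    refine Set.ncard_congr (fun z _ => (z.2 - 1, z.1)) ?_ ?_ ?_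
    · rintro z ⟨hd, ⟨p1, p2⟩, h⟩
      have hd' := hd
      obtain ⟨d1, d2, d3⟩ := hd
      simp only [mem_ofPred_eq] at h
      have e1 : q (z.2 - 1) = q z.2 := by
        have := L.per (z.2 - 1)
        rw [sub_add_cancel] at this
        exact this.symm
      have hD : ((z.2 - 1, z.1) : ℝ × ℝ) ∈ Dp q :=
        ⟨by simp only; linarith, by simp only; linarith, by simp only; rw [e1, d3]⟩
      refine ⟨hD, Dp_Zq hD, lt_of_le_of_ne (by simp only; linarith) fun he => ?_, p2⟩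
      simp only at he
      have := noz z.1
      rw [he] at this
      exact this (Dp_Zq hD)
    · rintro z w _ _ h
      simp only [Prod.mk.injEq] at h
      exact Prod.ext h.2 (by linarith [h.1])
    · rintro w ⟨hd, ht, h1, h2⟩
      obtain ⟨d1, d2, d3⟩ := hd
      refine ⟨(w.2, w.1 + 1), ⟨⟨by simp only; linarith, by simp only; linarith, by
        simp only; rw [L.per, d3]⟩, ⟨by simp only; linarith, h2⟩, ?_⟩, by simp⟩
      simp only [mem_ofPred_eq]
      linarith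
  conv_lhs => rw [h1]
  rw [Set.ncard_union_eq (by
    rw [Set.disjoint_left]
    rintro z ⟨-, -, -, h⟩ ⟨-, -, h'⟩
    simp only [mem_ofPred_eq] at h'
    linarith) (fin1.subset fun z hz => ⟨hz.1, (Tr_Pd σ hz.2).2⟩)
    (fin1.subset fun z hz => ⟨hz.1, hz.2.1⟩), h2]
  ring

theorem tri_odd (hG : Gen q) (hP : PLc q) : ∃ σ, (∀ y, (σ, y) ∉ Zq q) ∧ (Tr q σ).Finite ∧
    (((Tr q σ).ncard : ℕ) : ZMod 2) = 1 := by
  classical
  have L := hG.L
  obtain ⟨η1, hη1, sh0, -⟩ := short hG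
  obtain ⟨θ1, A1⟩ := exLA L hη1 sh0
  have right : ∀ s0, ∃ ρ > 0, ∃ k, ∀ s, s0 < s → s < s0 + ρ → KL θ1 s k := by
    intro s0
    rcases hP s0 with ⟨e, f, w, η, H⟩ | ⟨s1, e, d, η, H⟩
    · obtain ⟨ρ, hρ, k, hk⟩ := H.half L hη1 A1
      exact ⟨ρ, hρ, k, fun s h1 h2 => hk s h1.ne' (by rw [abs_of_pos (by linarith)]; linarith)⟩
    · obtain ⟨ρ, hρ, k, -, hk⟩ := H.half L hη1 A1
      exact ⟨ρ, hρ, k, fun s h1 h2 => hk s h1 (by rw [abs_of_pos (by linarith)]; linarith)⟩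
  obtain ⟨a, b, hab, hlin⟩ := hG.lin
  obtain ⟨s0, hs0⟩ : ∃ s0, s0 = (a + b) / 2 := ⟨_, rfl⟩
  obtain ⟨ρ1, hρ1, k0, hk0⟩ := right s0
  obtain ⟨ρ2, hρ2', k1, hk1⟩ := right (s0 + 1)
  obtain ⟨R, hR⟩ : ∃ R, R = |a| + |b| + 2 := ⟨_, rfl⟩
  have bd : ∀ s, a ≤ s → s ≤ b + 1 → |s| ≤ R := by
    intro s h1 h2
    rw [abs_le]
    have := neg_abs_le a
    have := le_abs_self b
    have := abs_nonneg a
    have := abs_nonneg b
    constructor <;> linarith
  obtain ⟨σ, hσ, hσ'⟩ := (Ioo_infinite (show s0 < s0 + min (min ρ1 ρ2) ((b - a) / 2) by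
    have : 0 < b - a := by linarith
    have : 0 < min (min ρ1 ρ2) ((b - a) / 2) := by positivity
    linarith)).exists_notMem_finset ((hG.fin R).toFinset.image Prod.fst)
  have hσ0 := hσ.1
  have hσ1 := hσ.2
  have m1 := (min_le_left (min ρ1 ρ2) ((b - a) / 2)).trans (min_le_left _ _)
  have m2 := (min_le_left (min ρ1 ρ2) ((b - a) / 2)).trans (min_le_right _ _)
  have m3 := min_le_right (min ρ1 ρ2) ((b - a) / 2)
  have s1 : σ < s0 + ρ1 := by linarith
  have s2 : σ < s0 + ρ2 := by linarith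
  have s3 : σ < b := by linarith
  have s4 : a < σ := by linarith
  have noz : ∀ y, (σ, y) ∉ Zq q := by
    intro y hy
    refine hσ' (Finset.mem_image.2 ⟨(σ, y), ?_, rfl⟩)
    rw [Set.Finite.mem_toFinset]
    exact ⟨hy, bd σ s4.le (by linarith)⟩
  have noz' : ∀ y, (σ + 1, y) ∉ Zq q := by
    intro y hy
    have := Zq_per L hy (-1)
    push_cast at this
    rw [show σ + 1 + -1 = σ by ring] at this
    exact noz _ this
  have np : ¬ Ps q σ := fun ⟨y, h1, h2, h3⟩ => noz y (dbl_mem h1 h2 h3)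
  have np' : ¬ Ps q (σ + 1) := fun ⟨y, h1, h2, h3⟩ => noz' y (dbl_mem h1 h2 h3)
  set Fs : Finset ℝ := ((hG.fin R).toFinset.filter (fun z => q z.1 = q z.2)).image Prod.fst with hFd
  have hF : ∀ s ∈ Icc σ (σ + 1), s ∈ Fs ↔ Ps q s := by
    intro s hs
    rw [hFd, Finset.mem_image]
    constructor
    · rintro ⟨z, hz, rfl⟩
      rw [Finset.mem_filter, Set.Finite.mem_toFinset] at hz
      exact ⟨z.2, hz.1.1.1.1, hz.1.1.1.2, hz.2⟩
    · rintro ⟨y, h1, h2, h3⟩
      refine ⟨(s, y), ?_, rfl⟩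
      rw [Finset.mem_filter, Set.Finite.mem_toFinset]
      exact ⟨⟨dbl_mem h1 h2 h3, bd s (by linarith [hs.1]) (by linarith [hs.2])⟩, h3⟩
  obtain ⟨η0, hη0, hbot⟩ := bot L hP hη1 A1 sh0 Fs hF np np' (hk0 σ hσ0 s1)
    (hk1 (σ + 1) (by linarith) (by linarith))
  -- the shifted curve
  have hG' := hG.shift σ
  have S' := (mgc_sg hG.L).shift hG.L σ
  obtain ⟨e, η2, he, hη2, hl⟩ := hlin σ ⟨s4, s3⟩
  have hl' : Lin (fun t => q (t + σ)) 0 e η2 := by
    intro s hs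
    show q (0 + s + σ) = q (0 + σ) + s * e
    rw [show 0 + s + σ = σ + s by ring, zero_add]
    exact hl s hs
  have h0' : ∀ y, ((0, y) : ℝ × ℝ) ∉ Zq (fun t => q (t + σ)) := by
    intro y hy
    rw [Zq_shift, zero_add] at hy
    exact noz _ hy
  obtain ⟨η, hη, hη3, hη4, hmar, hodd⟩ := ss_odd hG' S' h0' he hη2 hl' (ρ := 1 / 4) (by norm_num)
  obtain ⟨r, hr, r1, r2, r3⟩ : ∃ r > 0, r < η0 ∧ r < η1 ∧ r < η := by
    refine ⟨min (min η0 η1) η / 2, by positivity, ?_, ?_, ?_⟩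
    · have := (min_le_left (min η0 η1) η).trans (min_le_left _ _)
      linarith
    · have := (min_le_left (min η0 η1) η).trans (min_le_right _ _)
      linarith
    · have := min_le_right (min η0 η1) η
      linarith
  obtain ⟨n, hn, hcnt⟩ := hbot r hr r1
  set F : ℝ → ℝ → ℂ := GG (fun t => q (t + σ)) (mgc q) with hFF
  have hFc : Continuous fun p : ℝ × ℝ => F p.1 p.2 := GG_cont hG'.L (mgc_sg hG.L).cont
  have nz : ∀ x y : ℝ, x < y → y < x + 1 → |x| ≤ 3 → ∀ m : ℤ, (|x - m| ≤ η ∨ |y - m| ≤ η) →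
      F x y ≠ 0 := by
    intro x y h1 h2 hx m h h'
    have hz := (Zq_iff hG'.L S' (x := x) (y := y) ⟨h1, h2⟩).1 h'
    obtain ⟨a1, a2⟩ := hmar x y hz hx m
    rcases h with h | h <;> linarith
  have n0 : ∀ x, F x (x + r) ≠ 0 := by
    intro x
    have : F x (x + r) = GG q (mgc q) (x + σ) (x + σ + r) := by
      rw [show x + σ + r = x + r + σ by ring]; rfl
    rw [this]
    exact sh0 _ _ (by linarith) (by linarith)
  have a3 : ∀ {x : ℝ}, 0 ≤ x → x ≤ 1 → |x| ≤ 3 := fun h1 h2 => by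
    rw [abs_le]; constructor <;> linarith
  have n1 : ∀ x ∈ Icc 0 η, ∀ y ∈ Icc (x + r) (1 - η), F x y ≠ 0 := fun x hx y hy =>
    nz x y (by linarith [hy.1]) (by linarith [hx.1, hy.2]) (a3 hx.1 (by linarith [hx.2])) 0
      (Or.inl (by rw [Int.cast_zero, sub_zero, abs_of_nonneg hx.1]; exact hx.2))
  have n2 : ∀ y ∈ Icc (η + r) 1, F η y ≠ 0 := fun y hy =>
    nz η y (by linarith [hy.1]) (by linarith [hy.2]) (a3 hη.le (by linarith)) 0
      (Or.inl (by rw [Int.cast_zero, sub_zero, abs_of_nonneg hη.le]))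
  have n3 : ∀ x ∈ Icc η (1 - η), F x 1 ≠ 0 := fun x hx =>
    nz x 1 (by linarith [hx.2]) (by linarith [hx.1]) (a3 (by linarith [hx.1]) (by linarith [hx.2])) 1
      (Or.inr (by simp [hη.le]))
  have n4 : ∀ x ∈ Icc (1 - η) 1, ∀ y ∈ Icc (x + r) (1 + η), F x y ≠ 0 := fun x hx y hy =>
    nz x y (by linarith [hy.1]) (by linarith [hx.1, hy.2]) (a3 (by linarith [hx.1]) hx.2) 1
      (Or.inl (by rw [Int.cast_one, abs_le]; constructor <;> linarith [hx.1, hx.2]))
  have D := clamp hFc (GG_per hG'.L) hr r3 hη3 n0 n1 n2 n3 n4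
  -- the tiny loop
  have hT : dl (fun x => F x (x + r)) 0 1 = n * (2 * Real.pi * I) := by
    rw [← hn]
    have := dl_shift (f := fun x => F x (x + r)) (f' := fun x => Gs q x r) (a := 0) (b := 1)
      (s := σ) (by norm_num) (hFc.comp (f := fun x : ℝ => ((x, x + r) : ℝ × ℝ)) (by fun_prop))
      (fun t _ => n0 t) (fun t _ => by
        show GG q (mgc q) (t + σ) (t + r + σ) = GG q (mgc q) (t + σ) (t + σ + r)
        congr 1; ring)
    rw [this, zero_add, add_comm 1 σ]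
  -- zeros of the clamped map
  set Z := (hG'.fin 3).toFinset with hZ
  have hmZ : ∀ z, z ∈ Z ↔ z ∈ Zq (fun t => q (t + σ)) ∧ |z.1| ≤ 3 := fun z => by
    rw [hZ, Set.Finite.mem_toFinset]; rfl
  have notshort : ∀ z ∈ Zq (fun t => q (t + σ)), z.1 + η1 ≤ z.2 := by
    intro z hz
    by_contra hc
    push Not at hc
    have h1 := (Zq_iff hG'.L S' hz.1).2 hz
    have h2 := hz.1.1
    exact sh0 (z.1 + σ) (z.2 + σ) (by linarith) (by linarith) h1
  have hloc : ∀ z ∈ Z, ∃ r' > 0, ∀ s ∈ Icc (-r') r', ∀ t ∈ Icc (-r') r',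
      gc F r (z.1 + s) (z.2 + t) = sg (io (fun t => q (t + σ)) z) * gc F r (z.1 - s) (z.2 - t) := by
    intro z hz
    have hz' := ((hmZ z).1 hz).1
    obtain ⟨r0, hr0, H⟩ := germ_io hG' S' hz'
    have h1 := notshort z hz'
    refine ⟨min r0 ((η1 - r) / 2), by
      have : 0 < η1 - r := by linarith
      positivity, fun s hs t ht => ?_⟩
    have l1 := min_le_left r0 ((η1 - r) / 2)
    have l2 := min_le_right r0 ((η1 - r) / 2)
    rw [gc_hi (by linarith [hs.2, ht.1]), gc_hi (by linarith [hs.1, ht.2])]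
    exact H s ⟨by linarith [hs.1], by linarith [hs.2]⟩ t ⟨by linarith [ht.1], by linarith [ht.2]⟩
  have gnz : ∀ x y : ℝ, |x| ≤ 3 → y < x + 1 → gc F r x y = 0 → (x, y) ∈ Z ∧ x + r < y := by
    intro x y hx hy h
    rcases le_or_gt y (x + r) with h1 | h1
    · rw [gc_lo h1] at h
      exact absurd h (n0 x)
    · rw [gc_hi h1.le] at h
      exact ⟨(hmZ _).2 ⟨(Zq_iff hG'.L S' (x := x) (y := y) ⟨by simp only; linarith, hy⟩).1 h, hx⟩,
        h1⟩
  have B : Bd (gc F r) η (1 - η) r 1 := by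
    refine ⟨by linarith, by linarith, fun x hx => ?_, fun x hx => ?_, fun y hy => ?_,
      fun y hy => ?_⟩
    · rw [gc_lo (by linarith [hx.1])]; exact n0 x
    · rw [gc_hi (by linarith [hx.2])]; exact n3 x hx
    · unfold gc
      exact n2 _ ⟨le_max_right _ _, max_le hy.2 (by linarith)⟩
    · unfold gc
      exact n4 _ ⟨le_rfl, by linarith⟩ _
        ⟨le_max_right _ _, max_le (by linarith [hy.2]) (by linarith)⟩
  have pW := Wd_sum (gc_cont hFc r) Z (io (fun t => q (t + σ))) hloc _ η (1 - η) r 1 B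
    (fun x hx y hy h => (gnz x y (a3 (by linarith [hx.1]) (by linarith [hx.2]))
      (by linarith [hx.1, hy.2]) h).1) rfl
  -- counting
  have fin1 : (Tr q σ).Finite := (Pd_fin hG σ).subset (Tr_Pd σ)
  have hsum : ∑ z ∈ Z.filter (InR η (1 - η) r 1), io (fun t => q (t + σ)) z =
      (((Tr q σ \ Dp q).ncard : ℕ) : ZMod 2) := by
    have h1 : ∀ z : ℝ × ℝ, io (fun t => q (t + σ)) z =
        if q (z.1 + σ) ≠ q (z.2 + σ) then 1 else 0 := by
      intro z
      unfold io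
      by_cases h : q (z.1 + σ) = q (z.2 + σ) <;> simp [h]
    simp only [h1]
    rw [Finset.sum_boole]
    congr 1
    rw [← Set.ncard_coe_finset]
    refine Set.ncard_congr (fun z _ => (z.1 + σ, z.2 + σ)) ?_ ?_ ?_
    · intro z hz
      rw [Finset.mem_coe, Finset.mem_filter, Finset.mem_filter, hmZ] at hz
      obtain ⟨⟨⟨hw, -⟩, ⟨i1, i2⟩, i3, i4⟩, hne⟩ := hz
      have hw' : ((z.1 + σ, z.2 + σ) : ℝ × ℝ) ∈ Zq q := by
        rw [← Zq_shift]; exact hw
      exact ⟨⟨hw', by simp only; linarith, by simp only; linarith⟩, fun h => hne h.2.2⟩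
    · rintro z w _ _ h
      simp only [Prod.mk.injEq, add_left_inj] at h
      exact Prod.ext h.1 h.2
    · rintro w ⟨⟨hw, p1, p2⟩, hd⟩
      have hw1 := hw.1.1
      have hw2 := hw.1.2
      have hw' : ((w.1 - σ, w.2 - σ) : ℝ × ℝ) ∈ Zq (fun t => q (t + σ)) := by
        rw [Zq_shift, sub_add_cancel, sub_add_cancel]; exact hw
      have hab : |w.1 - σ| ≤ 3 := a3 (by linarith) (by linarith)
      have hm0 := (hmar _ _ hw' hab 0).1
      have hm1 := (hmar _ _ hw' hab 1)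
      rw [Int.cast_zero, sub_zero, abs_of_pos (by linarith)] at hm0
      rw [Int.cast_one, abs_sub_comm, abs_of_pos (by linarith), abs_sub_comm,
        abs_of_pos (by linarith)] at hm1
      refine ⟨(w.1 - σ, w.2 - σ), ?_, by simp⟩
      rw [Finset.mem_coe, Finset.mem_filter, Finset.mem_filter, hmZ]
      refine ⟨⟨⟨hw', hab⟩, ⟨hm0, by simp only; linarith [hm1.1]⟩, by simp only; linarith,
        by simp only; linarith⟩, ?_⟩
      simp only [sub_add_cancel]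
      exact fun h => hd ⟨hw1, hw2, h⟩
  have hDn : (n : ℤ) = -((Dp q ∩ Tr q σ).ncard : ℤ) := by
    have h1 := Dp_card hG Fs hF
    rw [Dp_half hG noz] at h1
    push_cast at h1
    linarith
  rw [hsum] at pW
  have key := pW.add hodd
  rw [D, hT] at key
  have pN : Pw ((n : ℂ) * (2 * Real.pi * I)) (n : ZMod 2) := ⟨n, rfl, rfl⟩
  have key2 := key.unique pN
  rw [hDn] at key2
  push_cast at key2
  refine ⟨σ, noz, fin1, ?_⟩
  have h3 : (Tr q σ).ncard = (Tr q σ \ Dp q).ncard + (Dp q ∩ Tr q σ).ncard := by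
    rw [← Set.ncard_union_eq (by
      rw [Set.disjoint_left]
      rintro z ⟨-, h⟩ ⟨h', -⟩
      exact h h') (fin1.subset fun z hz => hz.1) (fin1.subset fun z hz => hz.2)]
    congr 1
    ext z
    simp only [mem_inter_iff, mem_union, mem_sdiff]
    tauto
  rw [h3]
  push_cast
  have h4 : ∀ a b : ZMod 2, a + 1 = -b → a + b = 1 := by decide
  exact h4 _ _ key2

end Pool.Agent.H687.KC
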